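import Pool.Agent.Lib.DK.H3.Spec
import Pool.Agent.Lib.DI.T.All

set_option autoImplicit false

/-!
# Theorem DK, part H, module `Asm`: the assembly of Theorem H

`S_H` of the interface from the abstract form `DI.S_TH`, the construction `S_KK` and the
statements of parts E and G.
-/

open scoped Pointwise nonZeroDivisors

noncomputable section

namespace Pool.Agent.DK.H3

open Pool.Agent.MuZ Pool.Agent.FW NumberField IsDedekindDomain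
open Pool.Agent.DI (io ofC io_inj exists_io io_ofC ofC_io VP MP UP TP ex sqr sqr_sq kap)
open Pool.Agent.DI.H3 (Sqs Nsq S_KAP S_hLeg S_hPrm)
open Pool.Agent.DK

namespace AsmAux

/-- A field which contains `w` is totally complex. -/
theorem tc_of_wO (k : ℕ) [SqK k] (F : IntermediateField ℚ Om) [NumberField F] (h : wO k ∈ F) :
    IsTotallyComplex F := by
  refine ⟨fun v => ?_⟩
  rw [← InfinitePlace.not_isReal_iff_isComplex]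
  intro hv
  have h1 : ComplexEmbedding.IsReal v.embedding := InfinitePlace.isReal_iff.1 hv
  have h2 := h1.coe_embedding_apply (⟨wO k, h⟩ : F)
  set t : ℝ := h1.embedding (⟨wO k, h⟩ : F) with ht
  have h3 : (⟨wO k, h⟩ : F) ^ 2 = (⟨wO k, h⟩ : F) - 2 * (k : F) := by
    apply Subtype.ext
    have e := wO_sq (k := k)
    push_cast
    exact e
  have h4 : t ^ 2 = t - 2 * k := by
    rw [ht, ← map_pow, h3, map_sub, map_mul, map_ofNat, map_natCast]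
  have h5 : (1 : ℝ) ≤ k := by exact_mod_cast hk (k := k)
  nlinarith [sq_nonneg (t - 1 / 2)]

/-- An element of the inertia group at `2` which fixes `L'_n` and maps `i` to `-i`. -/
theorem rho_i (hGM : S_GM) (hE9 : S_E9) (k : ℕ) [SqK k] {f N : ℕ} (hf : Odd f) (h3 : 3 ≤ f)
    (hN : 2 ≤ N) {P : Ideal ZZ} (hP : Npr P) (h2 : MP P 2) :
    ∃ ρ ∈ P.inertia Gal(Om/ℚ), ρ ∈ (Mn k f N).fixingSubgroup ∧ ∀ i : Om, i ^ 2 = -1 → ρ i ≠ i := by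
  have hPp : P.IsPrime := hP.1
  have h1lt : 1 < 2 ^ N := Nat.one_lt_two_pow (by omega)
  have hcop : (2 ^ N - 1).Coprime (2 ^ N) := by
    have h3 := Nat.coprime_self_sub_left (n := 2 ^ N) (m := 1) h1lt.le
    rw [h3]
    exact Nat.coprime_one_left _
  obtain ⟨ρ, hρ, hρz⟩ := DI.in_cyc 2 Nat.prime_two P hP.1
    (by simpa using (DI.two_mem_iff hP.1).1 h2) N (2 ^ N - 1) hcop
  have hMf : ∀ x ∈ Mf k f, ρ x = x := (hE9 k f hf h3).2.2.2.2.1 P hP h2 ρ hρ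
  have hne : NeZero (2 ^ N) := ⟨by positivity⟩
  obtain ⟨ζ, hζ⟩ := HasEnoughRootsOfUnity.exists_primitiveRoot Om (2 ^ N)
  have hζ0 : ζ ≠ 0 := hζ.ne_zero (by positivity)
  have hinv : ∀ x : Om, x ^ 2 ^ N = 1 → ρ x * x = 1 := by
    intro x hx
    rw [hρz x hx, ← pow_succ, Nat.sub_add_cancel h1lt.le, hx]
  have hρζ : ρ ζ = ζ⁻¹ := eq_inv_of_mul_eq_one_left (hinv ζ hζ.pow_eq_one)
  have hfix : ∀ x ∈ Mn k f N, ρ x = x :=
    ((hGM k f hf h3).2.2.2.2.2.2.2 N ζ hζ ρ).2 ⟨hMf, Or.inr hρζ⟩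
  refine ⟨ρ, hρ, (IntermediateField.mem_fixingSubgroup_iff _ _).2 hfix, fun i hi hρi => ?_⟩
  have h4 : i ^ 4 = 1 := by
    have : i ^ 4 = (i ^ 2) ^ 2 := by ring
    rw [this, hi]
    norm_num
  have h5 : i ^ 2 ^ N = 1 := by
    obtain ⟨m, rfl⟩ : ∃ m, N = m + 2 := ⟨N - 2, by omega⟩
    rw [pow_add, mul_comm, pow_mul, show (2 : ℕ) ^ 2 = 4 by norm_num, h4, one_pow]
  have h6 : ρ i * i = 1 := hinv i h5
  rw [hρi] at h6
  have h7' : (-1 : Om) = 1 := by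
    rw [← hi, sq]
    exact h6
  norm_num at h7'

/-- The element `x` of `S_KK` is an element `k` of the abstract form. -/
theorem thn_of_kk (k : ℕ) [SqK k] {f N : ℕ} {m : Ideal (OO k)} {T : Finset (OO k)}
    {b : Ideal (OO k)} [NumberField (Mn k f N)] {B : ℕ}
    (hKK : ∀ l : ℕ, l.Prime → l % 4 = 1 → l.Coprime B →
      ∀ Q : Ideal ZZ, Npr Q → (l : ZZ) ∈ Q →
      Nat.card (𝓞 (Mn k f N) ⧸ Q.comap (iO (Mn k f N))) = l →
      ∀ φ : Gal(Om/ℚ), IsFr (Mn k f N) Q φ →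
      ∃ x : Mn k f N, x ≠ 0 ∧
        (∀ (q' : HeightOneSpectrum (𝓞 (Mn k f N))) (Q' : Ideal ZZ), Ab (Mn k f N) Q' q' →
          ¬ MP Q' 2 →
          ¬ (∃ s ∈ GK k, Q'.comap (iO (Mn k f N)) = (s • Q).comap (iO (Mn k f N))) →
          (2 : ℤ) ∣ vl (Mn k f N) q' x) ∧
        ∀ s ∈ GK k, ∀ q' : HeightOneSpectrum (𝓞 (Mn k f N)),
          q'.asIdeal = (s • Q).comap (iO (Mn k f N)) →
          ((vl (Mn k f N) q' x : ℤ) : ZMod 2) = kap (s⁻¹ (uN f N m T b)) φ)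
    (hnorm : ∀ τ : Gal(Om/ℚ), ∀ x ∈ Mn k f N, τ x ∈ Mn k f N)
    {Sg : Finset Gal(Om/ℚ)} (hSgK : ∀ s ∈ Sg, s ∈ GK k)
    (hSgex : ∀ τ ∈ GK k, ∃ s ∈ Sg, s⁻¹ * τ ∈ (Mn k f N).fixingSubgroup) :
    DI.Thn (Mn k f N) Sg (uN f N m T b) (2 * B) := by
  intro Q φ hQp hQ0 hMQ hprime h4 hφ
  have hlQ : ((Nat.card (𝓞 (Mn k f N) ⧸ Q.comap (iO (Mn k f N))) : ℕ) : ZZ) ∈ Q := by
    have h1 : ((Nat.card (𝓞 (Mn k f N) ⧸ Q.comap (iO (Mn k f N))) : ℕ) : 𝓞 (Mn k f N)) ∈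
        Q.comap (iO (Mn k f N)) := by
      rw [← Ideal.Quotient.eq_zero_iff_mem, map_natCast, ← nsmul_one]
      exact card_nsmul_eq_zero'
    rw [Ideal.mem_comap, map_natCast] at h1
    exact h1
  have hco : (Nat.card (𝓞 (Mn k f N) ⧸ Q.comap (iO (Mn k f N)))).Coprime B := by
    rw [hprime.coprime_iff_not_dvd]
    rintro ⟨j, hj⟩
    apply hMQ
    rw [hj]
    push_cast
    rw [mul_left_comm]
    exact Q.mul_mem_right _ hlQ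
  obtain ⟨x, hx0, hxev, hxod⟩ := hKK _ hprime h4 hco Q ⟨hQp, hQ0⟩ hlQ rfl φ hφ
  refine ⟨x, hx0, fun v' Q' hQ' h2' hdis => ?_, fun v' s hs hsv => hxod s (hSgK s hs) v' hsv.2.2⟩
  rw [even_iff_two_dvd]
  refine hxev v' Q' hQ' (fun h3 => h2' ((DI.two_mem_iff hQ'.1).1 h3)) ?_
  rintro ⟨s, hs, hsQ⟩
  obtain ⟨σ, hσ, hρ⟩ := hSgex s hs
  refine hdis σ hσ ⟨hQp.smul σ, (DI.npr_smul ⟨hQp, hQ0⟩ σ).2, ?_⟩
  rw [hQ'.2.2, hsQ]
  ext x
  rw [Ideal.mem_comap, Ideal.mem_comap, Ideal.mem_pointwise_smul_iff_inv_smul_mem,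
    Ideal.mem_pointwise_smul_iff_inv_smul_mem]
  have h5 : s⁻¹ • iO (Mn k f N) x = σ⁻¹ • iO (Mn k f N) x := by
    apply Subtype.ext
    change s⁻¹ ((x : Mn k f N) : Om) = σ⁻¹ ((x : Mn k f N) : Om)
    have h6 : σ⁻¹ ((x : Mn k f N) : Om) ∈ Mn k f N := hnorm σ⁻¹ _ (x : Mn k f N).2
    have h7 : (σ⁻¹ * s) (σ⁻¹ ((x : Mn k f N) : Om)) = σ⁻¹ ((x : Mn k f N) : Om) := hρ ⟨_, h6⟩
    have h8 : s⁻¹ = (σ⁻¹ * s)⁻¹ * σ⁻¹ := by group
    rw [h8, AlgEquiv.mul_apply]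
    conv_lhs => rw [← h7]
    rw [← AlgEquiv.mul_apply, inv_mul_cancel]
    rfl
  rw [h5]

end AsmAux

open AsmAux in
/-- **The assembly of Theorem H.** -/
theorem tAsm (h1 : S_KK) (h2 : S_G3) (h3 : S_GM) (h4 : S_E9) : S_hAsm := by
  intro k _ f m N T hf h3f hm0 hm2 hmf hN hT b hb0 hb g hg P d hP hP2 hdP hdF hdi Sg hSgK hSgex
    hSguni τ hτ
  obtain ⟨-, -, -, hKM, hfinM, -⟩ := h3 k f hf h3f
  obtain ⟨hfin, hMM, -⟩ := hfinM N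
  have hnf : NumberField (Mn k f N) := NumberField.mk
  have hwL : wO k ∈ Mn k f N :=
    hMM (hKM (IntermediateField.mem_adjoin_simple_self ℚ (wO k)))
  have htc : IsTotallyComplex (Mn k f N) := tc_of_wO k _ hwL
  obtain ⟨-, hnorm', -⟩ := h4 k f hf h3f
  have hnorm : ∀ τ : Gal(Om/ℚ), ∀ x ∈ Mn k f N, τ x ∈ Mn k f N := hnorm' N
  obtain ⟨huF, hu0, -⟩ := h2 k f m N T hf h3f hm0 hm2 hmf hN hT b hb0 hb
  obtain ⟨ρ, hρ, hρF, hρi⟩ := rho_i h3 h4 k hf h3f hN hP hP2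
  have hi : sqr (-1) ^ 2 = -1 := sqr_sq (-1)
  obtain ⟨B, hB, hKK⟩ := h1 k f N m T b hf h3f hN hm0 hm2 hmf hT hb0 hb
  refine DI.th (Mn k f N) Sg (uN f N m T b) (sqr (-1)) (2 * B)
    (fun σ _ => hnorm σ) (fun σ hσ τ' hτ' h3 => hSguni σ hσ τ' hτ' ?_) huF hu0 hi
    ⟨P, hP.1, hP.2, ρ, hρ, hρF, hρi _ hi⟩ (by positivity)
    (thn_of_kk k hKK hnorm hSgK hSgex) g hg P hP.1 ((DI.two_mem_iff hP.1).1 hP2)
    d (DI.stab_of_le hP hdP) hdF (hdi _ hi) τ hτ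
  rintro ⟨x, hx⟩
  change (σ⁻¹ * τ') x = x
  rw [AlgEquiv.mul_apply, ← h3 x hx, ← AlgEquiv.mul_apply, inv_mul_cancel]
  rfl

end Pool.Agent.DK.H3
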