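import Pool.Agent.Lib.DK.H3.Spec
import Pool.Agent.Lib.DI.H3.La

set_option autoImplicit false

/-!
# Theorem DK, part H3, module La: the prime ideal of `O` below `Q` (author helper31, after `DI/H3/La.lean`)
-/

open scoped Pointwise nonZeroDivisors

noncomputable section

namespace Pool.Agent.DK.H3

open Pool.Agent.MuZ Pool.Agent.FW NumberField IsDedekindDomain
open Pool.Agent.DI (io ofC io_inj exists_io io_ofC ofC_io VP MP UP TP ex sqr sqr_sq kap)
open Pool.Agent.DI.H3 (Sqs Nsq S_KAP S_hLeg S_hPrm)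
open Pool.Agent.DK

variable {k : ℕ}

namespace LaAux

theorem wO_int (k : ℕ) [SqK k] : IsIntegral ℤ (wO k) := by
  rw [← toO_wI]
  exact toO_integral _

end LaAux

theorem tLa (h1 : S_O2) : S_hLa := by
  intro k _ l hl Q hQ hlQ τ hτ hfr
  have hQ1 : Q.IsPrime := hQ.1
  have : Fact l.Prime := ⟨hl⟩
  have hD : IsDomain (ZZ ⧸ Q) := Ideal.Quotient.isDomain Q
  have hl0 : ((l : ℕ) : ZZ ⧸ Q) = 0 := by
    rw [← map_natCast (Ideal.Quotient.mk Q)]
    exact Ideal.Quotient.eq_zero_iff_mem.2 hlQ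
  have hchar : CharP (ZZ ⧸ Q) l := (CharP.charP_iff_prime_eq_zero hl).2 hl0
  set wZ : ZZ := ⟨wO k, LaAux.wO_int k⟩ with hwZdef
  have hwZ : wZ ^ 2 = wZ - 2 * (k : ZZ) := Subtype.ext (by push_cast; exact wO_sq)
  have hfix : τ • wZ = wZ := Subtype.ext (mem_GK_iff.1 hτ)
  have hy : (Ideal.Quotient.mk Q wZ) ^ l = Ideal.Quotient.mk Q wZ := by
    have h3 := hfr wZ
    rw [hfix] at h3
    have h4 := Ideal.Quotient.eq_zero_iff_mem.2 h3
    rw [map_sub, map_pow, sub_eq_zero] at h4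
    exact h4.symm
  obtain ⟨r, hr⟩ := DI.H3.LaAux.pf l (Ideal.Quotient.mk Q wZ) hy
  set φ : ZMod l →+* ZZ ⧸ Q := ZMod.castHom (dvd_refl l) (ZZ ⧸ Q) with hφ
  have hφi : Function.Injective φ := φ.injective
  have hr2 : r ^ 2 = r - 2 * k := by
    apply hφi
    rw [map_pow, map_sub, hr, map_mul, map_ofNat, map_natCast, ← map_pow, hwZ, map_sub, map_mul,
      map_ofNat, map_natCast]
  -- the reduction
  have hmk : ∀ x : OO k, Ideal.Quotient.mk Q ((x.re : ZZ) + (x.im : ZZ) * wZ) = φ (rd r x) := by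
    intro x
    unfold rd
    rw [map_add, map_mul, map_add, map_mul, hr, map_intCast, map_intCast, map_intCast,
      map_intCast]
  have hMP : ∀ x : OO k, MP Q (toO x) ↔ rd r x = 0 := by
    intro x
    have h3 : toO x = (((x.re : ZZ) + (x.im : ZZ) * wZ : ZZ) : Om) := by
      push_cast
      rfl
    rw [h3, DI.MP.coe_iff, ← Ideal.Quotient.eq_zero_iff_mem, hmk, map_eq_zero_iff φ hφi]
  have hev : ∀ x : OO k, evO r hr2 x = rd r x := fun _ => rfl
  have hsur : Function.Surjective (evO r hr2 : OO k →+* ZMod l) := by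
    intro x
    refine ⟨((x.val : ℕ) : OO k), ?_⟩
    rw [map_natCast, ZMod.natCast_zmod_val]
  have hmem : ∀ x : OO k, rd r x = 0 ↔ x ∈ RingHom.ker (evO r hr2 : OO k →+* ZMod l) := by
    intro x
    rw [← hev, RingHom.mem_ker]
  have hNI : NI (RingHom.ker (evO r hr2 : OO k →+* ZMod l)) = l := by
    unfold NI
    rw [Nat.card_congr (RingHom.quotientKerEquivOfSurjective hsur).toEquiv, Nat.card_zmod]
  refine ⟨RingHom.ker (evO r hr2), r, ⟨RingHom.ker_isPrime _, ?_, hl, hNI⟩, hr2, hmem,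
    fun x => (hMP x).trans (hmem x)⟩
  intro h0
  have h3 := ((h1 k).2.2.2.2.2.1 _).2 h0
  rw [hNI] at h3
  exact hl.ne_zero h3

end Pool.Agent.DK.H3
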