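import Pool.Agent.Lib.DK.H3.Spec

set_option autoImplicit false

/-!
# Theorem DK, part H, module `Lat`: the points `j / λ`
-/

open scoped Pointwise nonZeroDivisors

noncomputable section

namespace Pool.Agent.DK.H3

open Pool.Agent.MuZ Pool.Agent.FW NumberField IsDedekindDomain
open Pool.Agent.DI (io ofC io_inj exists_io io_ofC ofC_io VP MP UP TP ex sqr sqr_sq kap)
open Pool.Agent.DI.H3 (Sqs Nsq S_KAP S_hLeg S_hPrm)
open Pool.Agent.DK

variable {k : ℕ}

namespace LatAux

theorem mul_cj [SqK k] {la : OO k} {l : ℕ} (h : la * cjO la = (l : OO k)) :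
    toC la * toC (cjO la) = (l : ℂ) := by
  rw [← toC_mul, h, toC_nat]

theorem la_ne [SqK k] {la : OO k} {l : ℕ} (h : la * cjO la = (l : OO k)) (hl : l ≠ 0) :
    toC la ≠ 0 := by
  intro h0
  have h1 := mul_cj h
  rw [h0, zero_mul] at h1
  exact hl (by exact_mod_cast h1.symm)

theorem mul_pL {la : OO k} (h : toC la ≠ 0) (j : ℕ) : toC la * pL la j = (j : ℂ) := by
  unfold pL
  field_simp

theorem mem_toC [SqK k] (b : Ideal (OO k)) (x : OO k) : toC x ∈ Lam b :=
  lam_anti le_top (lam_top.2 ⟨x, rfl⟩)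

end LatAux

open LatAux

theorem tLat (h1 : S_O6) (h2 : S_hRdm) : S_hLat := by
  intro k _ f l la r hD
  obtain ⟨hmul, -, hsub, -, hnat, hone, -, hcj, -⟩ := h2 k f l la r hD
  have hl0 : l ≠ 0 := hD.hl.ne_zero
  have : NeZero l := ⟨hl0⟩
  have hlC : (l : ℂ) ≠ 0 := by exact_mod_cast hl0
  have hne : toC la ≠ 0 := la_ne hcj hl0
  -- an element of `b` which is `1` modulo `l`
  have hel : ∀ b : Ideal (OO k), b ≠ ⊥ → PrI b l → ∃ e ∈ b, ∃ s : OO k, e - 1 = (l : OO k) * s ∧
      rd r e = 1 := by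
    intro b hb hbl
    obtain ⟨e, he, -, s, hs⟩ := (h1 k).2.2.2.2 l b (Nat.pos_of_ne_zero hl0) hb hbl
    refine ⟨e, he, s, hs, ?_⟩
    have h3 : rd r (e - 1) = 0 := by
      rw [hs, hmul, hnat, ZMod.natCast_self, zero_mul]
    rw [hsub, hone, sub_eq_zero] at h3
    exact h3
  -- two natural numbers below `l` with the same point modulo `Lam b`
  have huni : ∀ b : Ideal (OO k), b ≠ ⊥ → PrI b l → ∀ j j' : ℕ, j < l → j' < l →
      pL la j - pL la j' ∈ Lam b → j = j' := by
    intro b hb hbl j j' hj hj' hL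
    obtain ⟨e, he, s, hs, her⟩ := hel b hb hbl
    obtain ⟨v, hv⟩ := hL e he
    have e1 : toC (e * ((j : OO k) - (j' : OO k))) = toC (la * v) := by
      rw [toC_mul, toC_sub, toC_nat, toC_nat, toC_mul, ← hv, ← mul_pL hne j, ← mul_pL hne j']
      ring
    have e2 : e * ((j : OO k) - (j' : OO k)) = la * v := toC_inj e1
    have e3 : rd r (e * ((j : OO k) - (j' : OO k))) = 0 := (hD.hker _).2 ⟨v, e2⟩
    rw [hmul, her, one_mul, hsub, hnat, hnat, sub_eq_zero] at e3
    have e4 := (ZMod.natCast_eq_natCast_iff' j j' l).1 e3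
    rwa [Nat.mod_eq_of_lt hj, Nat.mod_eq_of_lt hj'] at e4
  have hzero : pL la 0 = 0 := by simp [pL]
  have hfive : ∀ j : ℕ, pL la j = toC ((j : OO k) * cjO la) / l := by
    intro j
    have e1 := mul_cj hcj
    unfold pL
    rw [toC_mul, toC_nat, div_eq_div_iff hne hlC, ← e1]
    ring
  have hmem : ∀ (b : Ideal (OO k)) (j : ℕ), pL la j ∈ Lam (sp la * b) := by
    intro b j
    rw [lam_sp, mul_pL hne, ← toC_nat (k := k)]
    exact mem_toC b _
  refine ⟨?_, hfive, ?_, ?_, ?_, ?_⟩
  · intro a j j' hj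
    have e1 : rd r (a * (j : OO k) - (j' : OO k)) = 0 := by
      rw [hsub, hmul, hnat, hnat, hj, sub_self]
    obtain ⟨x, hx⟩ := (hD.hker _).1 e1
    refine ⟨x, ?_⟩
    have e2 : toC a * (j : ℂ) - (j' : ℂ) = toC la * toC x := by
      rw [← toC_mul, ← hx, toC_sub, toC_mul, toC_nat, toC_nat]
    apply mul_left_cancel₀ hne
    rw [mul_add, mul_pL hne, ← e2, mul_left_comm, mul_pL hne]
    ring
  · intro j hj
    refine ⟨cjO la, ?_⟩
    apply mul_left_cancel₀ hne
    rw [mul_pL hne, mul_add, mul_neg, mul_pL hne, mul_cj hcj, Nat.cast_sub hj]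
    ring
  · intro j
    exact ⟨_, l, Nat.pos_of_ne_zero hl0, hfive j⟩
  · intro j hj j' hj' h
    have htop : PrI (⊤ : Ideal (OO k)) l := by
      unfold PrI
      rw [top_sup_eq]
    refine huni ⊤ (by simp) htop j j' (by simpa using hj) (by simpa using hj') ?_
    have h' : pL la j = pL la j' := h
    rw [h', sub_self]
    exact lam_zero _
  · intro b hb hbl
    refine ⟨?_, ?_, ?_, ?_⟩
    · intro j hj0 hj
      refine ⟨hmem b j, fun hL => ?_⟩
      have e1 : pL la j - pL la 0 ∈ Lam b := by rwa [hzero, sub_zero]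
      have e2 := huni b hb hbl j 0 hj (Nat.pos_of_ne_zero hl0) e1
      omega
    · intro u hu
      obtain ⟨j, -, rfl⟩ := Finset.mem_image.1 hu
      exact hmem b j
    · intro z hz
      obtain ⟨e, he, s, hs, her⟩ := hel b hb hbl
      have hy : toC la * z ∈ Lam b := lam_sp.1 hz
      obtain ⟨x, hx⟩ := hy e he
      have hlt : (rd r x).val < l := ZMod.val_lt _
      refine ⟨pL la (rd r x).val, Finset.mem_image.2 ⟨_, Finset.mem_range.2 hlt, rfl⟩, ?_⟩
      have e1 : rd r (x - ((rd r x).val : OO k)) = 0 := by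
        rw [hsub, hnat, ZMod.natCast_zmod_val, sub_self]
      obtain ⟨w, hw⟩ := (hD.hker _).1 e1
      have e2 : z - pL la (rd r x).val = toC w - toC (cjO la * s) * (toC la * z) := by
        apply mul_left_cancel₀ hne
        have e3 : toC la * toC w = toC x - ((rd r x).val : ℂ) := by
          rw [← toC_mul, ← hw, toC_sub, toC_nat]
        have e4 : toC e - 1 = (l : ℂ) * toC s := by
          rw [← toC_one (k := k), ← toC_sub, hs, toC_mul, toC_nat]
        rw [mul_sub, mul_sub, mul_pL hne, e3, ← hx, toC_mul]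
        have e5 := mul_cj hcj
        linear_combination (-(toC la * z)) * e4 + toC s * (toC la * z) * e5
      rw [e2]
      exact lam_sub (mem_toC b w) (lam_mul _ hy)
    · intro u hu u' hu' hL
      obtain ⟨j, hj, rfl⟩ := Finset.mem_image.1 hu
      obtain ⟨j', hj', rfl⟩ := Finset.mem_image.1 hu'
      rw [huni b hb hbl j j' (Finset.mem_range.1 hj) (Finset.mem_range.1 hj') hL]

end Pool.Agent.DK.H3
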