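import Pool.Agent.Lib.DK.H3.Spec
import Pool.Agent.Lib.DI.H3.NmK

set_option autoImplicit false

/-!
# Theorem DK, part H: the prime `(λ)` of `K` (`S_hNmK`; helper24, port of `DI/H3/NmK.lean`)
-/

open scoped Pointwise nonZeroDivisors

noncomputable section

namespace Pool.Agent.DK.H3

open Pool.Agent.MuZ Pool.Agent.FW NumberField IsDedekindDomain
open Pool.Agent.DI (io ofC io_inj exists_io io_ofC ofC_io VP MP UP TP ex sqr sqr_sq kap)
open Pool.Agent.DI.H3 (Sqs Nsq S_KAP S_hLeg S_hPrm)
open Pool.Agent.DK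

theorem tNmK : S_hNmK := by
  intro k hk l la hl hla
  have hNF : NumberField (KQ k) := DI.numberField_adjoin (wO k)
  have hw : wO k ∈ KQ k := IntermediateField.mem_adjoin_simple_self ℚ (wO k)
  have htoO : toO la = (la.re : Om) + la.im * wO k := rfl
  have hmem : toO la ∈ KQ k := by
    rw [htoO]
    exact add_mem (intCast_mem (KQ k) _) (mul_mem (intCast_mem (KQ k) _) hw)
  have hI : IsIntegral ℤ (toO la) := toO_integral la
  have hIK : IsIntegral ℤ (⟨toO la, hmem⟩ : KQ k) := by
    rw [← isIntegral_algebraMap_iff (B := Om) (algebraMap (KQ k) Om).injective]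
    exact hI
  let b : 𝓞 (KQ k) := ⟨⟨toO la, hmem⟩, hIK⟩
  have hbc : ((b : KQ k) : Om) = toO la := rfl
  refine ⟨hNF, b, hbc, ?_⟩
  -- the imaginary coordinate is not zero
  have him : la.im ≠ 0 := by
    intro h0
    rw [Nm, h0] at hla
    have h1 : la.re ^ 2 = l := by
      rw [← hla]
      ring
    have h2 : (la.re.natAbs ^ 2 : ℕ) = l := by
      have h3 : ((la.re.natAbs ^ 2 : ℕ) : ℤ) = l := by
        rw [Nat.cast_pow, Int.natCast_natAbs, sq_abs, h1]
      exact_mod_cast h3
    rw [← h2] at hl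
    exact (Nat.Prime.not_prime_pow (n := 2) le_rfl) hl
  have hgen : KQ k = IntermediateField.adjoin ℚ {toO la} := by
    apply le_antisymm
    · rw [KQ, IntermediateField.adjoin_simple_le_iff]
      have h1 : wO k = (toO la - (la.re : Om)) / (la.im : Om) := by
        have h2 : (la.im : Om) ≠ 0 := by exact_mod_cast him
        rw [htoO]
        field_simp
        ring
      rw [h1]
      exact div_mem (sub_mem (IntermediateField.mem_adjoin_simple_self ℚ _)
        (intCast_mem _ _)) (intCast_mem _ _)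
    · rw [IntermediateField.adjoin_simple_le_iff]
      exact hmem
  have hnorm : Algebra.norm ℚ (b : KQ k) = (l : ℚ) := by
    apply DI.H3.NmKAux.norm_root (KQ k) (toO la) (2 * la.re + la.im) l hgen ?_ ?_ _ hbc
    · have hl2 : (l : Om) = ((Nm la : ℤ) : Om) := by
        rw [hla]
        simp
      have e1 : ((2 * la.re + la.im : ℚ) : Om) = 2 * (la.re : Om) + la.im := by
        push_cast
        ring
      have e2 : ((l : ℚ) : Om) = (l : Om) := by
        push_cast
        ring
      rw [e1, e2, hl2, Nm, htoO]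
      push_cast
      linear_combination (la.im : Om) ^ 2 * wO_sq (k := k)
    · intro t ht
      have hl2 : (l : ℚ) = ((Nm la : ℤ) : ℚ) := by
        rw [hla]
        simp
      rw [hl2, Nm] at ht
      push_cast at ht
      have h3 : 0 < (la.im : ℚ) ^ 2 := by
        have h4 : (la.im : ℚ) ≠ 0 := by exact_mod_cast him
        positivity
      have h5 : (1 : ℚ) ≤ k := by exact_mod_cast hk.pos
      have h6 : (la.im : ℚ) ^ 2 ≤ k * (la.im : ℚ) ^ 2 := le_mul_of_one_le_left h3.le h5
      nlinarith [sq_nonneg (t - la.re - la.im / 2)]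
  have habs : Ideal.absNorm (Ideal.span {b} : Ideal (𝓞 (KQ k))) = l := by
    rw [Ideal.absNorm_span_singleton]
    have h1 : ((Algebra.norm ℤ b : ℤ) : ℚ) = (l : ℚ) := by
      rw [Algebra.coe_norm_int]
      exact hnorm
    have h2 : Algebra.norm ℤ b = (l : ℤ) := by exact_mod_cast h1
    rw [h2, Int.natAbs_natCast]
  have hprime : (Ideal.span {b} : Ideal (𝓞 (KQ k))).IsPrime := by
    apply Ideal.isPrime_of_irreducible_absNorm
    rw [habs]
    exact hl
  refine ⟨hprime, ?_⟩
  intro P hP hMP
  have hne : (Ideal.span {b} : Ideal (𝓞 (KQ k))) ≠ ⊥ := by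
    intro h0
    rw [h0, Ideal.absNorm_bot] at habs
    exact hl.ne_zero habs.symm
  have hmax : (Ideal.span {b} : Ideal (𝓞 (KQ k))).IsMaximal := hprime.isMaximal hne
  have hbP : iO (KQ k) b ∈ P := by
    have h1 : MP P ((iO (KQ k) b : ZZ) : Om) := hMP
    exact (DI.MP.coe_iff _).1 h1
  have hle : (Ideal.span {b} : Ideal (𝓞 (KQ k))) ≤ P.comap (iO (KQ k)) := by
    rw [Ideal.span_singleton_le_iff_mem, Ideal.mem_comap]
    exact hbP
  have hne2 : P.comap (iO (KQ k)) ≠ ⊤ := (hP.comap (iO (KQ k))).ne_top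
  exact (hmax.eq_of_le hne2 hle).symm

end Pool.Agent.DK.H3
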