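import Pool.Agent.Lib.DK.H3.Spec

set_option autoImplicit false

/-!
# Theorem DK, part H3, module Rdm: the reduction modulo `λ`
-/

open scoped Pointwise nonZeroDivisors

noncomputable section

namespace Pool.Agent.DK.H3

open Pool.Agent.MuZ Pool.Agent.FW NumberField IsDedekindDomain
open Pool.Agent.DI (io ofC io_inj exists_io io_ofC ofC_io VP MP UP TP ex sqr sqr_sq kap)
open Pool.Agent.DK

namespace RdmAux

variable {k : ℕ}

theorem rd_mul {l : ℕ} {r : ZMod l} (hr : r ^ 2 = r - 2 * k) (x y : OO k) :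
    rd r (x * y) = rd r x * rd r y := by
  unfold rd
  rw [DK.re_mul, DK.im_mul]
  push_cast
  linear_combination (-((x.im : ZMod l) * (y.im : ZMod l))) * hr

theorem rd_add {l : ℕ} (r : ZMod l) (x y : OO k) : rd r (x + y) = rd r x + rd r y := by
  unfold rd
  rw [QuadraticAlgebra.re_add, QuadraticAlgebra.im_add]
  push_cast
  ring

theorem rd_neg {l : ℕ} (r : ZMod l) (x : OO k) : rd r (-x) = - rd r x := by
  unfold rd
  rw [QuadraticAlgebra.re_neg, QuadraticAlgebra.im_neg]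
  push_cast
  ring

theorem rd_sub {l : ℕ} (r : ZMod l) (x y : OO k) : rd r (x - y) = rd r x - rd r y := by
  rw [sub_eq_add_neg, rd_add, rd_neg, sub_eq_add_neg]

theorem rd_nat {l : ℕ} (r : ZMod l) (n : ℕ) : rd r (n : OO k) = n := by
  unfold rd
  rw [DK.re_nat, DK.im_nat]
  simp

theorem rd_one {l : ℕ} (r : ZMod l) : rd r (1 : OO k) = 1 := by
  unfold rd
  rw [DK.re_one, DK.im_one]
  simp

end RdmAux

open RdmAux in
theorem tRdm : S_hRdm := by
  intro k _ f l la r hD
  have hN : la * cjO la = (l : OO k) := by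
    rw [mul_cjO, hD.hla, Int.cast_natCast]
  refine ⟨rd_mul hD.hr, rd_add r, rd_sub r, rd_neg r, rd_nat r, rd_one r, ?_, hN,
    ⟨cjO la, hN.symm⟩⟩
  intro a ha h0
  have h2 : (l : ℤ) ∣ Nm a := by
    rw [← hD.hla]
    exact Nm_dvd ((hD.hker a).1 h0)
  have h3 : IsUnit (l : ℤ) := IsCoprime.isUnit_of_dvd' ha h2 dvd_rfl
  rw [Int.isUnit_iff] at h3
  have h4 := hD.hl.one_lt
  omega

end Pool.Agent.DK.H3
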