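import Pool.Agent.Lib.DK.H3.Spec
import Pool.Agent.Lib.DI.H3.Leg

set_option autoImplicit false

/-!
# Theorem DK, part H, module `Res`: the result
-/

open scoped Pointwise nonZeroDivisors

noncomputable section

namespace Pool.Agent.DK.H3

open Pool.Agent.MuZ Pool.Agent.FW NumberField IsDedekindDomain
open Pool.Agent.DI (io ofC io_inj exists_io io_ofC ofC_io VP MP UP TP ex sqr sqr_sq kap)
open Pool.Agent.DI.H3 (Sqs Nsq S_KAP S_hLeg S_hPrm tLeg)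
open Pool.Agent.DK

namespace ResAux

theorem npr_smul {Q : Ideal ZZ} (σ : Gal(Om/ℚ)) (hQ : Npr Q) : Npr (σ • Q) := by
  obtain ⟨hp, h0⟩ := hQ
  refine ⟨inferInstance, fun h => h0 ?_⟩
  rw [eq_bot_iff]
  intro x hx
  have h1 : σ • x ∈ σ • Q := (DI.smul_mem_smul_iff σ x).2 hx
  rw [h] at h1
  have h2 : σ • x = 0 := h1
  have h3 : x = 0 := by
    have h4 := congrArg (fun t => σ⁻¹ • t) h2
    simpa using h4
  rw [h3]
  exact Ideal.zero_mem _

/-- A prime with `l` in it does not contain an integer prime to `l`. -/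
theorem nat_not_mem {P : Ideal ZZ} (hP : P.IsPrime) {l B : ℕ} (hlP : (l : ZZ) ∈ P)
    (h : l.Coprime B) : (B : ZZ) ∉ P := by
  intro hB
  obtain ⟨x, y, hxy⟩ := Nat.isCoprime_iff_coprime.2 h
  apply hP.one_notMem
  have e : ((x : ZZ) * (l : ZZ) + (y : ZZ) * (B : ZZ)) = 1 := by
    have := congrArg (fun t : ℤ => (t : ZZ)) hxy
    simpa using this
  rw [← e]
  exact P.add_mem (P.mul_mem_left _ hlP) (P.mul_mem_left _ hB)

end ResAux

open ResAux in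
theorem tRes (h1 : S_O2) (h2 : S_O6) (_h3 : S_E1) (h4 : S_E2) (h5 : S_G3) (_h6 : S_hSq)
    (h7 : S_hLa) (h8 : S_hAlm) (h9 : S_hPri) (h10 : S_hFix) (h11 : S_hEps) (h12 : S_hUni)
    (h13 : S_hNrm) (h14 : S_hCng) (h15 : S_hHom) (h16 : S_hUnr) (h17 : S_hRam) (h18 : S_hTra) :
    S_hRes := by
  intro k _ f N m T b hf hf3 hN hm0 hm2 hmf hT hb0 hb
  have hf0 : 0 < f := hf.pos
  have hM0 : 0 < f * 2 ^ N := Nat.mul_pos hf0 (pow_pos (by norm_num) N)
  have hN1 : 1 ≤ N := by omega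
  obtain ⟨hfin, hfix, hconj, hgen⟩ := h10 k f N hf hf3 hN1
  obtain ⟨B1, hB1, hE2⟩ := h4 k (f * 2 ^ N) hM0
  obtain ⟨B2, hB2, hAlm⟩ := h8 (Mn k f N) hfin
  obtain ⟨-, -, -, hNIsp, -, hNI0, -, -⟩ := h1 k
  obtain ⟨-, o2, o3, o4, -⟩ := h2 k
  have hm : 0 < NI m := Nat.pos_of_ne_zero fun h => hm0 ((hNI0 m).1 h)
  have hbb : 0 < NI b := Nat.pos_of_ne_zero fun h => hb0 ((hNI0 b).1 h)
  refine ⟨f * NI m * NI b * B1 * B2, by positivity, ?_⟩
  intro l hl hl4 hlc Q hQ hlQ φ hφ hφf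
  have hl2 : l ≠ 2 := by omega
  have hodd : Odd l := by
    rw [Nat.odd_iff]
    omega
  have cB2 : l.Coprime B2 := Nat.Coprime.coprime_dvd_right (Dvd.intro_left _ rfl) hlc
  have c1 : l.Coprime (f * NI m * NI b * B1) := Nat.Coprime.coprime_dvd_right (Dvd.intro _ rfl) hlc
  have cB1 : l.Coprime B1 := Nat.Coprime.coprime_dvd_right (Dvd.intro_left _ rfl) c1
  have c2 : l.Coprime (f * NI m * NI b) := Nat.Coprime.coprime_dvd_right (Dvd.intro _ rfl) c1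
  have cb : l.Coprime (NI b) := Nat.Coprime.coprime_dvd_right (Dvd.intro_left _ rfl) c2
  have c3 : l.Coprime (f * NI m) := Nat.Coprime.coprime_dvd_right (Dvd.intro _ rfl) c2
  have cm : l.Coprime (NI m) := Nat.Coprime.coprime_dvd_right (Dvd.intro_left _ rfl) c3
  have cf : l.Coprime f := Nat.Coprime.coprime_dvd_right (Dvd.intro _ rfl) c3
  have hφK : φ ∈ GK k := ((hfix φ).1 hφ).1
  -- the prime `λ`
  obtain ⟨q, r, hq, hr, hrd, hMQ⟩ := h7 k l hl Q hQ hlQ φ hφK hφf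
  have hQq : Abv Q q := fun v hv => (hMQ v).2 hv
  have hpsi : Psi φ (f * 2 ^ N) q := hE2 q l hq cB1 Q hQ hQq φ hφK hφf
  obtain ⟨la, hqla, hHN⟩ := (h9 k f N hf hf3 hN1 q).1 (((hfix φ).1 hφ).2 q hpsi)
  have hla : Nm la = l := by
    rw [← hNIsp, ← hqla, hq.2.2.2]
  have hmem : ∀ x : OO k, x ∈ q ↔ la ∣ x := by
    intro x
    rw [hqla]
    exact Ideal.mem_span_singleton
  have hker : ∀ x : OO k, rd r x = 0 ↔ la ∣ x := fun x => (hrd x).trans (hmem x)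
  have hQla : MP Q (toO la) := (hMQ la).2 ((hmem la).2 dvd_rfl)
  have hlm : PrI m l := (o3 l m hl.pos).2 cm.symm
  have hlb : PrI b l := (o3 l b hl.pos).2 cb.symm
  have D : Dat f N m T b l la r :=
    { hf := hf, h3 := hf3, hl := hl, hl4 := hl4, hlf := cf, hla := hla, hr := hr,
      hker := hker, hN := hN, hm0 := hm0, hm2 := hm2, hmf := hmf, hT := hT, hb0 := hb0, hb := hb,
      hlm := hlm, hlb := hlb, hHN := hHN }
  obtain ⟨h, hVV, hH⟩ := h15 k f N l la r hN1 D.toDatL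
  obtain ⟨εs, hεs⟩ : ∃ e, e = epq f N m T b la (Sqs l) := ⟨_, rfl⟩
  obtain ⟨εn, hεn⟩ : ∃ e, e = epq f N m T b la (Nsq l) := ⟨_, rfl⟩
  have hnrm : εs * εn = 1 := by
    rw [hεs, hεn]
    exact h13 k f N m T b l la r D
  have hεs0 : εs ≠ 0 := by
    intro h0
    rw [h0, zero_mul] at hnrm
    exact zero_ne_one hnrm
  -- the action of `Gal(Om/F)`
  have hact : ∀ τ ∈ (Mn k f N).fixingSubgroup, (h τ = 0 → τ εs = εs) ∧ (h τ ≠ 0 → τ εs = εn) := by
    intro τ hτ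
    obtain ⟨a, hHa, ha⟩ := hgen τ hτ (l * NI m) (Nat.mul_pos hl.pos hm)
    have hMM : 0 < f * 2 ^ N * (l * NI m) := Nat.mul_pos hM0 (Nat.mul_pos hl.pos hm)
    have hca : Cop a l := by
      have e1 : PrI (sp a) (f * 2 ^ N * (l * NI m)) := ha.cop
      exact (o4 l a hl.pos).1 ((o2 l (NI m) _).1 ((o2 (f * 2 ^ N) (l * NI m) _).1 e1).2).1
    have hiff := hH τ hτ _ a hMM ⟨NI m, by ring⟩ hHa ha
    have ha' : Psi τ (f * 2 ^ N * l * NI m) (sp a) := by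
      rw [mul_assoc (f * 2 ^ N) l (NI m)]
      exact ha
    obtain ⟨k1, k2⟩ := h11 k f N m T b l la r D τ a ha' hHa hca
    rw [← hεs, ← hεn] at k1 k2
    exact ⟨fun h0 => (k1 (hiff.1 h0)).1, fun h0 => (k2 fun hs => h0 (hiff.2 hs)).1⟩
  -- primes over `λ`
  have hlP : ∀ σ : Gal(Om/ℚ), (l : ZZ) ∈ σ • Q := by
    intro σ
    have e : σ • (l : ZZ) = (l : ZZ) := by
      apply Subtype.ext
      rw [DI.smul_coe]
      push_cast
      exact map_natCast σ l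
    rw [← e]
    exact (DI.smul_mem_smul_iff σ _).2 hlQ
  have hPla : ∀ σ ∈ GK k, MP (σ • Q) (toO la) := by
    intro σ hσ
    have e := (DI.MP.smul (P := Q) σ (x := toO la)).2 hQla
    rwa [GK_toO hσ la] at e
  have hram : ∀ σ ∈ GK k, ∃ ι ∈ (σ • Q).inertia Gal(Om/ℚ),
      ι ∈ (Mn k f N).fixingSubgroup ∧ h ι ≠ 0 := by
    intro σ hσ
    have hP : Npr (σ • Q) := npr_smul σ hQ
    exact h17 k f N l la r hN1 D.toDatL h hH (σ • Q) hP (hlP σ) (hPla σ hσ)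
      (hAlm (σ • Q) hP (nat_not_mem hP.1 (hlP σ) cB2))
  refine ⟨h, hVV, εs, hεs0, ?_, ?_, ?_, ?_, ?_, ?_⟩
  · intro h0
    obtain ⟨ι, -, -, hι⟩ := hram 1 (GK k).one_mem
    rw [h0] at hι
    exact hι rfl
  · intro τ hτ h0
    exact (hact τ hτ).1 h0
  · intro τ hτ h0
    rw [(hact τ hτ).2 h0, mul_comm, hnrm]
  · intro P hP hP2
    have hu := ((h12 k f N m T b l la r D).1 P hP hP2).1
    rwa [← hεs] at hu
  · intro P hP hP2 hne ι hι hιF
    by_cases hmp : MP P (toO la)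
    · obtain ⟨σ, hσ, he⟩ := h18 k l la hl hla P Q hP hQ hmp hQla
      exact absurd he (hne σ hσ)
    · exact h16 k f N l la r hN1 D.toDatL h hH P hP hmp ι hι hιF
  · intro σ hσ
    have hP : Npr (σ • Q) := npr_smul σ hQ
    have := hP.1
    have hψ := hconj σ hσ φ hφ
    have hψf : ∀ x : ZZ, (σ * φ * σ⁻¹) • x - x ^ l ∈ σ • Q := by
      intro x
      have e : (σ * φ * σ⁻¹) • x - x ^ l = σ • (φ • (σ⁻¹ • x) - (σ⁻¹ • x) ^ l) := by
        rw [smul_sub, smul_pow', smul_inv_smul, mul_smul, mul_smul]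
      rw [e]
      exact (DI.smul_mem_smul_iff σ _).2 (hφf _)
    obtain ⟨huL, hu0, huU, -⟩ := h5 k f m N T hf hf3 hm0 hm2 hmf hN hT b hb0 hb
    have hψu : (σ * φ * σ⁻¹) (uN f N m T b) = uN f N m T b :=
      (IntermediateField.mem_fixingSubgroup_iff (Mn k f N) _).1 hψ _ huL
    obtain ⟨k1, k2⟩ := tLeg.1 l (σ • Q) (uN f N m T b) (σ * φ * σ⁻¹) hodd hP (huU _ hP) hψu hψf
    have hk := tLeg.2 (uN f N m T b) σ φ hu0
    rw [hk] at k1 k2
    have hcng := h14 k f N m T b l la r D (σ • Q) hP (hlP σ) (hPla σ hσ)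
    rw [← hεs] at hcng
    refine ⟨hram σ hσ, fun h0 => ?_, fun h0 => ?_⟩
    · have e := hcng.add (k1 h0)
      rwa [sub_add_sub_cancel] at e
    · have e := hcng.add (k2 h0)
      have e' : εs + 1 = εs - uN f N m T b ^ ((l - 1) / 2) +
          (uN f N m T b ^ ((l - 1) / 2) + 1) := by ring
      rwa [← e'] at e

end Pool.Agent.DK.H3
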