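import Pool.Agent.Lib.DK.H3.Spec
import Pool.Agent.Lib.DI.H3.Rdm
import Pool.Agent.Lib.DI.H3.JP

/-!
# Theorem DK, part H3, module Sq: squares modulo `l`
-/

set_option autoImplicit false

open scoped Pointwise nonZeroDivisors

noncomputable section

namespace Pool.Agent.DK.H3

open Pool.Agent.MuZ Pool.Agent.FW NumberField IsDedekindDomain
open Pool.Agent.DI (io ofC io_inj exists_io io_ofC ofC_io VP MP UP TP ex sqr sqr_sq kap)
open Pool.Agent.DI.H3 (Sqs Nsq S_KAP S_hLeg S_hPrm)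
open Pool.Agent.DI.H3.RdmAux (sq_mul mem_Sqs mem_Nsq prod_split card_split card_eq prod_half)
open Pool.Agent.DI.H3.JPAux (perm)
open Pool.Agent.DK

/-- **Squares modulo `l`.** -/
theorem tSq : S_hSq := by
  intro l hl h4
  have hF : Fact l.Prime := ⟨hl⟩
  have hNZ : NeZero l := ⟨hl.ne_zero⟩
  have hm : IsSquare (-1 : ZMod l) := by
    rw [ZMod.exists_sq_eq_neg_one_iff]
    omega
  have hl2 : l ≠ 2 := by omega
  have hneg : ∀ x : ZMod l, IsSquare x → IsSquare (-x) := by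
    intro x hx
    have h := hm.mul hx
    rwa [neg_one_mul] at h
  have hN0 : ∀ j ∈ Nsq l, (j : ZMod l) ≠ 0 := by
    intro j hj h0
    exact (mem_Nsq.1 hj).2 (h0 ▸ IsSquare.zero)
  have hpos : ∀ j : ℕ, (j : ZMod l) ≠ 0 → 0 < j := by
    intro j hj
    rcases Nat.eq_zero_or_pos j with h | h
    · subst h
      exact absurd (by simp) hj
    · exact h
  refine ⟨sq_mul, hm, ?_, ?_, ?_, ?_, prod_split hl.pos, prod_half h4 hm, ?_⟩
  · intro x
    exact ⟨fun h => by rw [← neg_neg x]; exact hneg _ h, hneg x⟩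
  · have h2 := card_split hl.pos
    have h3 := card_eq hl2
    omega
  · intro j hj
    exact ⟨hpos j (mem_Sqs.1 hj).2.1, (mem_Sqs.1 hj).1⟩
  · intro j hj
    exact ⟨hpos j (hN0 j hj), (mem_Nsq.1 hj).1⟩
  · intro x G hx
    have hxi : x⁻¹ ≠ 0 := inv_ne_zero hx
    have hsi : IsSquare x⁻¹ ↔ IsSquare x := isSquare_inv
    have hSS : ∀ y : ZMod l, y ≠ 0 → IsSquare y → ∀ j ∈ Sqs l, (y * (j : ZMod l)).val ∈ Sqs l := by
      intro y hy hs j hj
      obtain ⟨_, hj0, hjs⟩ := mem_Sqs.1 hj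
      rw [mem_Sqs, ZMod.natCast_zmod_val]
      exact ⟨ZMod.val_lt _, mul_ne_zero hy hj0, (sq_mul y j hy hj0).2 ⟨fun _ => hjs, fun _ => hs⟩⟩
    have hNN : ∀ y : ZMod l, y ≠ 0 → IsSquare y → ∀ j ∈ Nsq l, (y * (j : ZMod l)).val ∈ Nsq l := by
      intro y hy hs j hj
      obtain ⟨_, hjs⟩ := mem_Nsq.1 hj
      rw [mem_Nsq, ZMod.natCast_zmod_val]
      exact ⟨ZMod.val_lt _, fun h => hjs (((sq_mul y j hy (hN0 j hj)).1 h).1 hs)⟩
    have hSN : ∀ y : ZMod l, y ≠ 0 → ¬ IsSquare y → ∀ j ∈ Sqs l, (y * (j : ZMod l)).val ∈ Nsq l := by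
      intro y hy hs j hj
      obtain ⟨_, hj0, hjs⟩ := mem_Sqs.1 hj
      rw [mem_Nsq, ZMod.natCast_zmod_val]
      exact ⟨ZMod.val_lt _, fun h => hs (((sq_mul y j hy hj0).1 h).2 hjs)⟩
    have hNS : ∀ y : ZMod l, y ≠ 0 → ¬ IsSquare y → ∀ j ∈ Nsq l, (y * (j : ZMod l)).val ∈ Sqs l := by
      intro y hy hs j hj
      obtain ⟨_, hjs⟩ := mem_Nsq.1 hj
      rw [mem_Sqs, ZMod.natCast_zmod_val]
      exact ⟨ZMod.val_lt _, mul_ne_zero hy (hN0 j hj),
        (sq_mul y j hy (hN0 j hj)).2 ⟨fun h => absurd h hs, fun h => absurd h hjs⟩⟩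
    have lS : ∀ j ∈ Sqs l, j < l := fun j hj => (mem_Sqs.1 hj).1
    have lN : ∀ j ∈ Nsq l, j < l := fun j hj => (mem_Nsq.1 hj).1
    refine ⟨fun hs => ?_, fun hs => ?_, fun hs => ?_, fun hs => ?_⟩
    · exact perm hl x hx G _ _ lS lS (hSS x hx hs) (hSS _ hxi (hsi.2 hs))
    · exact perm hl x hx G _ _ lN lN (hNN x hx hs) (hNN _ hxi (hsi.2 hs))
    · exact perm hl x hx G _ _ lS lN (hSN x hx hs) (hNS _ hxi (fun h => hs (hsi.1 h)))
    · exact perm hl x hx G _ _ lN lS (hNS x hx hs) (hSN _ hxi (fun h => hs (hsi.1 h)))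

end Pool.Agent.DK.H3
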