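import Pool.Agent.Lib.DK.H3.Spec
import Pool.Agent.Lib.DI.H3.Prm

/-!
# Theorem DK, part H: permutation of the set `T` of representatives
-/

set_option autoImplicit false

open scoped Pointwise nonZeroDivisors

noncomputable section

namespace Pool.Agent.DK.H3

open Pool.Agent.MuZ Pool.Agent.FW NumberField IsDedekindDomain
open Pool.Agent.DI (io ofC io_inj exists_io io_ofC ofC_io VP MP UP TP ex sqr sqr_sq kap)
open Pool.Agent.DK

variable {k : ℕ}

private theorem TP_cop {a : OO k} {n : ℕ} (ha : Cop a n) : IsCoprime a (n : OO k) := by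
  obtain ⟨b, -, c, hc⟩ := cop_inv ha
  refine ⟨b, -c, ?_⟩
  linear_combination hc

theorem tTP (h1 : S_hHN) : S_hTP := by
  intro k _ f N T a G hf h3 hN hT ha hev hper
  obtain ⟨_, _, hmul, _, hcop⟩ := h1 k f N hf h3
  have hca : IsCoprime a ((f * 2 ^ N : ℕ) : OO k) := TP_cop ((hcop a ha).2 hN).2
  refine Pool.Agent.DI.H3.tPrm (OO k) Om T
    (fun x y => ((f * 2 ^ N : ℕ) : OO k) ∣ x - y ∨ ((f * 2 ^ N : ℕ) : OO k) ∣ x + y)
    (fun t => a * t) G ?_ ?_ ?_ ?_ ?_
  · intro x y h
    rcases h with h | h
    · exact Or.inl ((dvd_sub_comm).mp h)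
    · exact Or.inr (by rwa [add_comm])
  · intro x y z hxy hyz
    rcases hxy with h | h <;> rcases hyz with h' | h'
    · left
      have := dvd_add h h'
      rwa [sub_add_sub_cancel] at this
    · right
      have := dvd_add h h'
      have e : x - y + (y + z) = x + z := by ring
      rwa [e] at this
    · right
      have := dvd_sub h h'
      have e : x + y - (y - z) = x + z := by ring
      rwa [e] at this
    · left
      have := dvd_sub h h'
      have e : x + y - (y + z) = x - z := by ring
      rwa [e] at this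
  · intro t ht
    have hat := hmul a t ha (hT.mem t ht).1
    obtain ⟨t', ht', h⟩ := hT.ex (a * t) hat ((hcop _ hat).2 hN).1
    exact ⟨t', ht', h⟩
  · intro t ht t' ht' h
    refine hT.uni t ht t' ht' ?_
    rcases h with h | h
    · left
      have e : a * t - a * t' = a * (t - t') := by ring
      rw [e] at h
      exact hca.symm.dvd_of_dvd_mul_left h
    · right
      have e : a * t + a * t' = a * (t + t') := by ring
      rw [e] at h
      exact hca.symm.dvd_of_dvd_mul_left h
  · intro x y h
    rcases h with ⟨z, hz⟩ | ⟨z, hz⟩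
    · have e : x = y + ((f * 2 ^ N : ℕ) : OO k) * z := by rw [← hz]; ring
      rw [e]
      exact hper y z
    · have e : x = -y + ((f * 2 ^ N : ℕ) : OO k) * z := by rw [← hz]; ring
      rw [e, hper (-y) z]
      exact hev y

end Pool.Agent.DK.H3
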