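import Pool.Agent.Lib.DK.H3.Spec

set_option autoImplicit false

/-!
# Theorem DK, part H, module Uni: units
-/

open scoped Pointwise nonZeroDivisors

noncomputable section

namespace Pool.Agent.DK.H3

open Pool.Agent.MuZ Pool.Agent.FW NumberField IsDedekindDomain
open Pool.Agent.DI (io ofC io_inj exists_io io_ofC ofC_io VP MP UP TP ex sqr sqr_sq kap)
open Pool.Agent.DI.H3 (Sqs Nsq S_KAP S_hLeg S_hPrm)
open Pool.Agent.DK

namespace UniAux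

private lemma odd_of_coprime {a : ℤ} (h : IsCoprime a (2 : ℤ)) : ¬ (2 : ℤ) ∣ a := by
  intro hd
  have h2 : IsUnit (2 : ℤ) := h.symm.isUnit_of_dvd' dvd_rfl hd
  rw [Int.isUnit_iff] at h2
  omega

end UniAux

open UniAux in
theorem tUni (h1 : S_O6) (h2 : S_D5) (h3 : S_hGd) : S_hUni := by
  intro k _ f N m T b l la r hD
  have hb2 : PrI b 2 := (((h1 k).2.1 2 f b).1 hD.hb).1
  have ola : ¬ (2 : ℤ) ∣ Nm la := by
    rw [hD.hla]
    have := hD.hl4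
    omega
  have ot : ∀ t ∈ T, ¬ (2 : ℤ) ∣ Nm t := by
    intro t ht
    have hc : Cop t (2 * f) := (hD.hT.mem t ht).2
    have hc2 : Cop t 2 := cop_dvd hc (dvd_mul_right 2 f)
    exact odd_of_coprime (by exact_mod_cast hc2)
  have hN1 : 1 ≤ N := by have := hD.hN; omega
  have key : ∀ t ∈ T, ∀ j : ℕ, ∀ Q : Ideal ZZ, Npr Q → ¬ MP Q 2 →
      UP Q (Theta m b (Tz f N t + pL la j)) ∧ UP Q (Theta m b (Tz f N t)) := by
    intro t ht j Q hQ hQ2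
    obtain ⟨g1, g2, -, -⟩ := h3 k f N m b t la j hD.hf hN1 hD.hm0 hD.hm2 hD.hb0 hb2 (ot t ht) ola
    exact ⟨h2 k m b hD.hm0 hD.hb0 hD.hm2 Q hQ _ g1.1 (g1.2 Q hQ hQ2),
      h2 k m b hD.hm0 hD.hb0 hD.hm2 Q hQ _ g2.1 (g2.2 Q hQ hQ2)⟩
  refine ⟨fun Q hQ hQ2 => ?_, ot, rfl⟩
  have : Q.IsPrime := hQ.1
  refine ⟨?_, ?_, ?_, fun t ht => (key t ht 0 Q hQ hQ2).2⟩
  · exact DI.UP.prod _ _ fun t ht => DI.UP.prod _ _ fun j _ => (key t ht j Q hQ hQ2).1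
  · exact DI.UP.prod _ _ fun t ht => DI.UP.prod _ _ fun j _ => (key t ht j Q hQ hQ2).1
  · exact DI.UP.prod _ _ fun t ht => (key t ht 0 Q hQ hQ2).2

end Pool.Agent.DK.H3
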