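import Pool.Agent.Lib.DI.H3.Leg
import Pool.Agent.Lib.DI.T.Kap
import Pool.Agent.Lib.DK.O.All
import Pool.Agent.Lib.DK.H3.Alm
import Pool.Agent.Lib.DK.H3.Asm
import Pool.Agent.Lib.DK.H3.Cng
import Pool.Agent.Lib.DK.H3.Dg
import Pool.Agent.Lib.DK.H3.Eps
import Pool.Agent.Lib.DK.H3.Fin
import Pool.Agent.Lib.DK.H3.Fix
import Pool.Agent.Lib.DK.H3.Gd
import Pool.Agent.Lib.DK.H3.HN
import Pool.Agent.Lib.DK.H3.Hom
import Pool.Agent.Lib.DK.H3.Inr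
import Pool.Agent.Lib.DK.H3.La
import Pool.Agent.Lib.DK.H3.Lat
import Pool.Agent.Lib.DK.H3.NmK
import Pool.Agent.Lib.DK.H3.Nrm
import Pool.Agent.Lib.DK.H3.Pri
import Pool.Agent.Lib.DK.H3.Ram
import Pool.Agent.Lib.DK.H3.Rdm
import Pool.Agent.Lib.DK.H3.Res
import Pool.Agent.Lib.DK.H3.Sq
import Pool.Agent.Lib.DK.H3.TP
import Pool.Agent.Lib.DK.H3.Tra
import Pool.Agent.Lib.DK.H3.Uni
import Pool.Agent.Lib.DK.H3.Unr

/-!
# Theorem DK, part H: `S_H`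
-/

set_option autoImplicit false

namespace Pool.Agent.DK.H3

open Pool.Agent.MuZ Pool.Agent.FW Pool.Agent.DK
open Pool.Agent.DI.H3 (S_KAP)

theorem tKAP : S_KAP := fun F _ _ hh _ _ hw h0 h1 => DI.kap_ex F hh hw h0 h1

/-- The statements of the other parts used in part H. -/
structure HIn : Prop where
  b1 : S_B1
  b7 : S_B7
  r4 : S_R4
  d3 : S_D3
  d4 : S_D4
  d5 : S_D5
  d6 : S_D6
  d7 : S_D7
  d8 : S_D8
  e1 : S_E1
  e2 : S_E2
  e4 : S_E4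
  e8 : S_E8
  e9 : S_E9
  e10 : S_E10
  gm : S_GM
  g3 : S_G3

/-- **Part H, the element `x`.** -/
theorem aKK (I : HIn) : S_KK := by
  have aRdm := tRdm
  have aSq := tSq
  have aHN := tHN
  have aTP := tTP aHN
  have aPri := tPri aHN
  have aDg := tDg aO2 aRdm
  have aLa := tLa aO2
  have aLat := tLat aO6 aRdm
  have aGd := tGd aO6
  have aFix := tFix I.e1 I.e9 I.gm aPri
  have aEps := tEps I.e10 I.d8 aSq aRdm aHN aTP aLat
  have aUni := tUni aO6 I.d5 aGd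
  have aNrm := tNrm aO6 I.d7 I.d8 I.g3 aSq aLat aGd aUni aTP
  have aCng := tCng aO6 I.d3 I.d6 aSq aDg aLat aGd aUni
  have aHom := tHom aO6 aO7 I.e1 I.e8 aSq aRdm aHN aFix
  have aUnr := tUnr I.b1 I.r4 I.e4 aO6 aSq aRdm aDg aLat aFix
  have aInr := tInr tNmK
  have aRam := tRam I.b1 I.b7 I.d4 aO6 aSq aRdm aDg aLat aFix aInr
  have aTra := tTra tNmK
  have aRes := tRes aO2 aO6 I.e1 I.e2 I.g3 aSq aLa tAlm aPri aFix aEps aUni aNrm aCng aHom aUnr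
    aRam aTra
  exact tFin aRes tKAP

/-- **Part H (Theorem H).** -/
theorem aH (I : HIn) : S_H := tAsm (aKK I) I.g3 I.gm I.e9

end Pool.Agent.DK.H3
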