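import Pool.Agent.Lib.DI.H3.Spec
import Pool.Agent.Lib.DK.Base
import Pool.Agent.Lib.DK.IfaceG
import Pool.Agent.Lib.DK.IfaceH

set_option autoImplicit false

/-!
# Theorem DK, part H (author helper9): Thaine's argument

`F = Mn k f N`, `Q` a prime of `ZZ` over the prime number `l`, `φ ∈ Gal(Om/F)` with `φ x ≡ x ^ l mod Q`. The
prime ideal of `O` below `Q` is PRINCIPAL (it is the Artin symbol of `φ`, in the group `HPN`), `= (λ)`,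
`Nm λ = l`, `λ ∈ H_N`. `h : Gal(Om/F) → F_2` is `0` iff `τ = Psi (a)`, `a ∈ H_N`, with `a` a SQUARE modulo `λ`.
`w = ε_s = ∏_{t ∈ T} ∏_{j square} Θ(t/(f 2^N) + j/λ)` (lattice `Lam b`).
Result: `τ w = w` or `w⁻¹` according to `h τ`; `w` is a unit outside `2`; `w ≡ (-1)^(kap u φ') mod P` for
all `P` over `λ`; `MM/F` is ramified exactly at the primes over `λ` (outside `2`). With `S_KAP` this gives `S_KK`
and then `S_H` (abstract Theorem H `DI.th`, already proved).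

DIFFERENCES to `DI/H3`: all constants are `1` (no module CC); the finitely many bad `l` are excluded by an
integer `B`; the factor `v` in `t v` has disappeared (there is the ideal `b` instead); everything about squares
modulo `l` is in the module `Sq` (no field `K`); the elementary facts on `O`, `Lam`, `Tor`, `GK` are PROVED in
`DK/Base.lean` (`Nm_mul`, `cop_mul`, `cop_inv`, `toC_mul`, `toO_VP`, `lam_*`, `tor_*`, `mem_GK_iff`, `GK_toO`, ...).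

RULES. Every statement `S_hX` is to be proved in the module `DK/H3/X.lean` (file `Pool/Agent/Lib/DK/H3/X.lean`) as
`theorem tX (h1 : ..) (h2 : ..) .. : S_hX`, the hypotheses being the statements named after USES, in this order. `S_h..` is in this
file, the others in `DK/Iface.lean`, `DK/IfaceG.lean` (these are NOT to be proved here). Start from the module
`DI/H3/X.lean` if it exists. Header as in this file; imports: this file, and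
the modules named in the task.
-/

open scoped Pointwise nonZeroDivisors

noncomputable section

namespace Pool.Agent.DK.H3

open Pool.Agent.MuZ Pool.Agent.FW NumberField IsDedekindDomain
open Pool.Agent.DI (io ofC io_inj exists_io io_ofC ofC_io VP MP UP TP ex sqr sqr_sq kap)
open Pool.Agent.DI.H3 (Sqs Nsq S_KAP S_hLeg S_hPrm)
open Pool.Agent.DK

variable {k : ℕ}

/-- The reduction `O → F_l`, `w ↦ r` (a ring homomorphism if `r ^ 2 = r - 2 k`). -/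
def rd {l : ℕ} (r : ZMod l) (x : OO k) : ZMod l := (x.re : ZMod l) + (x.im : ZMod l) * r

/-- The point `j / λ`. -/
def pL (la : OO k) (j : ℕ) : ℂ := (j : ℂ) / toC la

/-- The point `x / (f 2 ^ N)`. -/
def Tz (f N : ℕ) (x : OO k) : ℂ := toC x / (f * 2 ^ N : ℕ)

/-- The condition on `z` under which `Θ(b, z)` is a unit outside `2` (hypothesis of `S_D5`, `S_D6`). -/
def Gd (m b : Ideal (OO k)) (z : ℂ) : Prop := Tor k z ∧ ∀ Q : Ideal ZZ, Npr Q → ¬ MP Q 2 →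
  ∀ u ∈ Lam (m * b), ¬ Qp Q b (z + u)

/-- `∏_{t ∈ T} ∏_{j ∈ J} Θ(b, t / (f 2^N) + j/λ)`. -/
def epq (f N : ℕ) (m : Ideal (OO k)) (T : Finset (OO k)) (b : Ideal (OO k)) (la : OO k)
    (J : Finset ℕ) : Om :=
  ∏ t ∈ T, ∏ j ∈ J, Theta m b (Tz f N t + pL la j)

/-- `λ` is a prime element of norm `l`, `l = 1 mod 4`, `l` prime to `f`, `r` the image of `w`
modulo `λ`. -/
structure DatL (f l : ℕ) (la : OO k) (r : ZMod l) : Prop where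
  hf : Odd f
  h3 : 3 ≤ f
  hl : l.Prime
  hl4 : l % 4 = 1
  hlf : l.Coprime f
  hla : Nm la = l
  hr : r ^ 2 = r - 2 * k
  hker : ∀ x : OO k, rd r x = 0 ↔ la ∣ x

/-- The data. -/
structure Dat (f N : ℕ) (m : Ideal (OO k)) (T : Finset (OO k)) (b : Ideal (OO k)) (l : ℕ)
    (la : OO k) (r : ZMod l) : Prop extends DatL f l la r where
  hN : 2 ≤ N
  hm0 : m ≠ ⊥
  hm2 : PrI m 2
  hmf : PrI m f
  hT : IsRep f N T
  hb0 : b ≠ ⊥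
  hb : PrI b (2 * f)
  hlm : PrI m l
  hlb : PrI b l
  hHN : HN f N la

/-- The property of the homomorphism `h`. -/
def IsH (k f N l : ℕ) (r : ZMod l) (h : Gal(Om/ℚ) → ZMod 2) : Prop :=
  ∀ τ ∈ (Mn k f N).fixingSubgroup, ∀ (M : ℕ) (a : OO k), 0 < M → f * 2 ^ N * l ∣ M → HN f N a →
    Psi τ M (sp a) → (h τ = 0 ↔ IsSquare (rd r a))

/-! ## Elementary statements -/

/-- (100 lines, module `Sq`; USES nothing) **Squares modulo `l`.** PROOF. All parts are public theorems of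
`DI/H3/Rdm.lean` (namespace `DI.H3.RdmAux`: `sq_mul`, `prod_split`, `card_split`, `card_eq`, `prod_half`, `mem_Sqs`) and `DI/H3/JP.lean`
(`JPAux.perm`); copy the end of the proofs of `DI.H3.tRdm` and `DI.H3.tJP` (replace `h1 f l la r hd` by `sq_mul`). -/
def S_hSq : Prop := ∀ l : ℕ, l.Prime → l % 4 = 1 →
  (∀ x y : ZMod l, x ≠ 0 → y ≠ 0 → (IsSquare (x * y) ↔ (IsSquare x ↔ IsSquare y))) ∧
  IsSquare (-1 : ZMod l) ∧ (∀ x : ZMod l, IsSquare (-x) ↔ IsSquare x) ∧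
  (Sqs l).card = (l - 1) / 2 ∧
  (∀ j ∈ Sqs l, 0 < j ∧ j < l) ∧ (∀ j ∈ Nsq l, 0 < j ∧ j < l) ∧
  (∀ g : ℕ → Om, ∏ j ∈ Finset.range l, g j = g 0 * (∏ j ∈ Sqs l, g j) * ∏ j ∈ Nsq l, g j) ∧
  (∀ g : ℕ → Om, (∀ j ∈ Sqs l, g (l - j) = g j) →
    ∏ j ∈ Sqs l, g j = (∏ j ∈ (Sqs l).filter (fun j => 2 * j < l), g j) ^ 2) ∧
  ∀ (x : ZMod l) (G : ℕ → Om), x ≠ 0 →
    (IsSquare x → ∏ j ∈ Sqs l, G ((x * (j : ZMod l)).val) = ∏ j ∈ Sqs l, G j) ∧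
    (IsSquare x → ∏ j ∈ Nsq l, G ((x * (j : ZMod l)).val) = ∏ j ∈ Nsq l, G j) ∧
    (¬ IsSquare x → ∏ j ∈ Sqs l, G ((x * (j : ZMod l)).val) = ∏ j ∈ Nsq l, G j) ∧
    (¬ IsSquare x → ∏ j ∈ Nsq l, G ((x * (j : ZMod l)).val) = ∏ j ∈ Sqs l, G j)

/-- (60 lines, module `Rdm`; USES nothing) **The reduction modulo `λ`.** PROOF. (1) - (6): direct (`r ^ 2 = r - 2 k`; see
`DI/H3/Rdm.lean`; use `DK.re_mul`, `DK.im_mul`). (7) `λ ∣ a` gives `l ∣ Nm a` (`Nm_dvd`), contradiction to `Cop a l`. (8) `mul_cjO`.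
(9) follows. -/
def S_hRdm : Prop := ∀ (k : ℕ) [SqK k] (f l : ℕ) (la : OO k) (r : ZMod l), DatL f l la r →
  (∀ x y : OO k, rd r (x * y) = rd r x * rd r y) ∧ (∀ x y : OO k, rd r (x + y) = rd r x + rd r y) ∧
  (∀ x y : OO k, rd r (x - y) = rd r x - rd r y) ∧ (∀ x : OO k, rd r (-x) = - rd r x) ∧
  (∀ n : ℕ, rd r (n : OO k) = n) ∧ rd r (1 : OO k) = 1 ∧
  (∀ a : OO k, Cop a l → rd r a ≠ 0) ∧ la * cjO la = (l : OO k) ∧ la ∣ (l : OO k)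

/-- (80 lines, module `HN`; USES nothing) **The group `H_N`.** PROOF. `Hf f v`: `Cop v f` and `f ∣ v ^ 2 ^ j - 1` for some `j`.
(1) `j = 0`. (2) `-1`: `j = 1`, `Nm (-1) = 1`. (3) products: `cop_mul`; if `f ∣ a ^ 2 ^ i - 1` then `f ∣ a ^ 2 ^ j - 1` for all `j ≥ i`
(`sub_one_dvd`-type: `x - 1 ∣ x ^ n - 1`), `a^n b^n - 1 = (a^n - 1) b^n + (b^n - 1)`; `Nm (a b) ∓ 1` from `Nm_mul`.
(4) periodic: `cop_congr`, `a + f c ≡ a` modulo `f` (`(x + y) ^ n ≡ x ^ n`: `sub_dvd_pow_sub_pow`), `Nm_congr`. (5) `Nm a ≡ ±1` modulo `2 ^ N`, `N ≥ 1`,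
so `Nm a` is odd, prime to `2 f` and to `f 2^N` (`IsCoprime` in `ℤ`); `a ≠ 0` since `Nm 0 = 0` is not prime to `f ≥ 3`. -/
def S_hHN : Prop := ∀ (k : ℕ) [SqK k] (f N : ℕ), Odd f → 3 ≤ f →
  HN f N (1 : OO k) ∧ HN f N (-1 : OO k) ∧ (∀ a b : OO k, HN f N a → HN f N b → HN f N (a * b)) ∧
  (∀ a b : OO k, HN f N a → ((f * 2 ^ N : ℕ) : OO k) ∣ a - b → HN f N b) ∧
  ∀ a : OO k, HN f N a → a ≠ 0 ∧ (1 ≤ N → Cop a (2 * f) ∧ Cop a (f * 2 ^ N))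

/-- (80 lines, module `TP`; USES `S_hHN`) **Permutation of `T`.** PROOF. `tPrm` with `R x y` : `m ∣ x - y` or `m ∣ x + y`, `m = f 2 ^ N`,
`e t = a t`; see `DI/H3/TP.lean`. `a t ∈ H_N`, prime to `2 f` (`S_hHN`): `IsRep.ex`. If `m ∣ a (t ∓ t')`: multiply by the inverse of `a`
modulo `m` (`cop_inv`). -/
def S_hTP : Prop := ∀ (k : ℕ) [SqK k] (f N : ℕ) (T : Finset (OO k)) (a : OO k) (G : OO k → Om),
  Odd f → 3 ≤ f → 1 ≤ N → IsRep f N T → HN f N a → (∀ x, G (-x) = G x) →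
  (∀ x y : OO k, G (x + ((f * 2 ^ N : ℕ) : OO k) * y) = G x) → ∏ t ∈ T, G (a * t) = ∏ t ∈ T, G t

/-- (80 lines, module `Pri`; USES `S_hHN`) **The classes in `HPN` are principal.** PROOF. `Ray (f 2^N) c (v)`: `α c = α' (v)`, `α ≡ α'`
modulo `M = f 2^N`, both prime to `M`, nonzero. `α' v ∈ α c`, so `α' v = α γ`, `(α) c = (α) (γ)` and `c = (γ)` (cancellation of a
nonzero principal ideal in a domain: `Ideal.span_singleton_mul_right_inj` or `Ideal.span_singleton_mul_left_inj`). `M ∣ α (γ - v)` since `α γ - α v = (α' - α) v`; with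
the inverse of `α` modulo `M` (`cop_inv`): `M ∣ γ - v`, so `γ ∈ H_N` (`S_hHN`). Conversely `v = γ` (`Cop γ (2 f)` by `S_hHN`), `Ray` is
reflexive (`α = α' = 1`). -/
def S_hPri : Prop := ∀ (k : ℕ) [SqK k] (f N : ℕ), Odd f → 3 ≤ f → 1 ≤ N → ∀ c : Ideal (OO k),
  HPN f N c ↔ ∃ γ : OO k, c = sp γ ∧ HN f N γ

/-- (80 lines, module `Dg`; USES `S_O2`, `S_hRdm`) **The prime ideal `(λ)`.** PROOF. `NI (λ) = Nm λ = l`, so `O / (λ)` has `l` elements, `l` prime. It is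
prime: if `x y ∈ (λ)` then `rd r x * rd r y = 0` in the field `ZMod l` (`hker`), and `1 ∉ (λ)` as `rd r 1 = 1`. `(λ) ≠ ⊥`. (2) `v = λ u`,
`toO v = toO λ toO u` with `toO u` integral (`toO_VP`), and `λ ∈ (λ)`. (3) `λ ∣ l ∣ M`. -/
def S_hDg : Prop := ∀ (k : ℕ) [SqK k] (f l : ℕ) (la : OO k) (r : ZMod l), DatL f l la r →
  Deg1 (sp la) l ∧ (∀ Q : Ideal ZZ, Npr Q → (MP Q (toO la) ↔ Abv Q (sp la))) ∧
  ∀ M : ℕ, l ∣ M → sp ((M : ℕ) : OO k) ≤ sp la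

/-- (120 lines, module `La`; USES `S_O2`) **The prime ideal of `O` below `Q`.** PROOF. See `DI/H3/La.lean`. `τ` fixes `wO` (`mem_GK_iff`), which is in `ZZ` (root of
`X ^ 2 - X + 2 k`), so `wO ^ l - wO ∈ Q`. The elements `y` of the domain `ZZ ⧸ Q` with
`y ^ l = y` are the images of `ZMod l` (`DI.H3.LaAux.pf`): there is `r` with image the image of `wO`, so `r ^ 2 = r - 2 k`,
and `MP Q (toO x)` iff `rd r x = 0`. `q` = the kernel of the surjective ring homomorphism `evO r : O → ZMod l` (`x ↦ rd r x`): it is a prime ideal,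
`O / q ≃ ZMod l` has `l` elements (`RingHom.quotientKerEquivOfSurjective`), `NI q = l ≠ 0`, so `q ≠ ⊥` (`NI ⊥ = 0` by `S_O2`). -/
def S_hLa : Prop := ∀ (k : ℕ) [SqK k] (l : ℕ), l.Prime → ∀ Q : Ideal ZZ, Npr Q → (l : ZZ) ∈ Q →
  ∀ τ ∈ GK k, (∀ x : ZZ, τ • x - x ^ l ∈ Q) →
  ∃ (q : Ideal (OO k)) (r : ZMod l), Deg1 q l ∧ r ^ 2 = r - 2 * k ∧
    (∀ x : OO k, rd r x = 0 ↔ x ∈ q) ∧ ∀ x : OO k, MP Q (toO x) ↔ x ∈ q

/-- (150 lines, module `Lat`; USES `S_O6`, `S_hRdm`) **The points `j/λ`.** PROOF. See `DI/H3/Lat.lean`. (1) `a (j/λ) - j'/λ = (a j - j')/λ` and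
`rd r (a j - j') = 0`, so `λ ∣ a j - j'`. (2) `1/λ = cjO λ / l`. (3) `l/λ = cjO λ`. (4) torsion. (5) Let `b` be prime to `l` and `e ∈ b` with `l ∣ e - 1` (`S_O6`).
`λ (j/λ) = j ∈ O ⊆ Lam b` (`lam_anti le_top`, `lam_top`), so `j/λ ∈ Lam (λ b)` (`lam_sp`). If `j/λ ∈ Lam b`, `0 < j < l`: `e j/λ ∈ O`, so `λ ∣ e j`, `rd r (e j) = j = 0` (`rd r e = 1`),
contradiction. (6) `IsSys`: `z ∈ Lam (λ b)`: `y = λ z ∈ Lam b`; `x = e y ∈ O`; `z - x/λ = (1 - e) y/λ = - s l y/λ = - s (cjO λ) y ∈ Lam b` (`e - 1 = l s`); `x ≡ j mod λ` with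
`j = (rd r x).val`, `(x - j)/λ ∈ O ⊆ Lam b`. Uniqueness: as (5) for `j - j'`. -/
def S_hLat : Prop := ∀ (k : ℕ) [SqK k] (f l : ℕ) (la : OO k) (r : ZMod l), DatL f l la r →
  (∀ (a : OO k) (j j' : ℕ), (j' : ZMod l) = rd r a * j →
    ∃ x : OO k, toC a * pL la j = pL la j' + toC x) ∧
  (∀ j : ℕ, pL la j = toC ((j : OO k) * cjO la) / l) ∧
  (∀ j : ℕ, j ≤ l → ∃ x : OO k, pL la (l - j) = - pL la j + toC x) ∧
  (∀ j : ℕ, Tor k (pL la j)) ∧ Set.InjOn (pL la) (Finset.range l : Set ℕ) ∧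
  ∀ b : Ideal (OO k), b ≠ ⊥ → PrI b l →
    (∀ j : ℕ, 0 < j → j < l → pL la j ∈ Lam (sp la * b) ∧ pL la j ∉ Lam b) ∧
    IsSys (sp la) b ((Finset.range l).image (pL la))

/-- (120 lines, module `Gd`; USES `S_O6`) **Good points.** PROOF. See `DI/H3/Gd.lean`. Let `μ ∈ m` and `e ∈ b` with `2 ∣ μ - 1`, `2 ∣ e - 1` (`S_O6`); `Nm μ`, `Nm e` are odd (`Nm_congr`).
KEY: `λ μ x / 2^N ∉ Lam b`, because otherwise `e λ μ x / 2^N = toC y`, `e λ μ x = 2 ^ N y` and the norm of the left side is odd. Let `z = x/(f 2^N) + j/λ`, `u ∈ Lam (m b)`, so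
`μ u ∈ Lam b` (`lam_prod`), `Q` not over `2`. Let `α = 2 ^ N`, `β = f λ μ`. `¬ MP Q (toO α)`. `β (z + u) = λ μ x / 2^N + f μ j + f λ (μ u)` is not in `Lam b` by KEY (`f μ j ∈ O ⊆ Lam b`),
`α β (z + u) ∈ Lam b`. So `z + u` is not `Q`-primary. The case without `j/λ` is `j = 0`. (3), (4): if `z ∈ Lam (λ m b)` then `λ μ z ∈ Lam b` (`lam_prod`, `λ μ ∈ (λ) m`), so
`f λ μ z ∈ Lam b`: contradiction to KEY. -/
def S_hGd : Prop := ∀ (k : ℕ) [SqK k] (f N : ℕ) (m b : Ideal (OO k)) (x la : OO k) (j : ℕ), Odd f →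
  1 ≤ N → m ≠ ⊥ → PrI m 2 → b ≠ ⊥ → PrI b 2 → ¬ (2 : ℤ) ∣ Nm x → ¬ (2 : ℤ) ∣ Nm la →
  Gd m b (Tz f N x + pL la j) ∧ Gd m b (Tz f N x) ∧ Tz f N x ∉ Lam (sp la * m * b) ∧
    Tz f N x + pL la j ∉ Lam (sp la * m * b)

/-- (80 lines, module `Alm`; USES nothing) **A number field is unramified at almost all primes.** PROOF. `F = ℚ(θ)` (`Field.exists_primitive_element`), `θ` integral over `ℤ` (multiply by an integer), so
`θ ∈ ZZ`. The conjugates of `θ` are a finite set `S ⊆ ZZ` (roots of `minpoly ℚ θ`). For `a ≠ c` in `S` there is an integer `n > 0` with `(n : ZZ) ∈ (a - c) ZZ` (the absolute value of the constant coefficient of the minimal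
polynomial of `a - c` over `ℤ`; `Ideal.exists_...`/`exists_nonzero_dvd`-type lemma for integral elements). `B` = the product of these `n`. If
`ι ∈ Q.inertia` then `ι • θ - θ ∈ Q`; if it is not `0` then `B ∈ Q`. So `ι θ = θ` and `ι` fixes `F`. -/
def S_hAlm : Prop := ∀ F : IntermediateField ℚ Om, FiniteDimensional ℚ F →
  ∃ B : ℕ, 0 < B ∧ ∀ Q : Ideal ZZ, Npr Q → (B : ZZ) ∉ Q → ∀ ι ∈ Q.inertia Gal(Om/ℚ),
    ι ∈ F.fixingSubgroup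

/-- (100 lines, module `Fix`; USES `S_E1`, `S_E9`, `S_GM`, `S_hPri`) **Galois theory of `F = Mn k f N`.** PROOF. `τ ∈ F.fixingSubgroup` fixes `KQ ≤ Mf ≤ Mn`, so it is in `GK`; `S_GM`:
for `Psi τ (f 2^N) c` the condition is `HPN f N c`. Conversely choose `c` by `S_E1`. (3) conjugation: `F` is stable under `σ⁻¹` (`S_E9`), see `DI/H3/Fix.lean`. (4) `Psi τ (f 2^N M) c` by
`S_E1`, so `Psi τ (f 2^N) c` (`S_E1`, last part), `HPN f N c`, `c = (a)`, `a ∈ H_N` by `S_hPri`. -/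
def S_hFix : Prop := ∀ (k : ℕ) [SqK k] (f N : ℕ), Odd f → 3 ≤ f → 1 ≤ N →
  FiniteDimensional ℚ (Mn k f N) ∧
  (∀ τ : Gal(Om/ℚ), τ ∈ (Mn k f N).fixingSubgroup ↔
    τ ∈ GK k ∧ ∀ c : Ideal (OO k), Psi τ (f * 2 ^ N) c → HPN f N c) ∧
  (∀ σ ∈ GK k, ∀ τ ∈ (Mn k f N).fixingSubgroup, σ * τ * σ⁻¹ ∈ (Mn k f N).fixingSubgroup) ∧
  ∀ τ ∈ (Mn k f N).fixingSubgroup, ∀ M : ℕ, 0 < M → ∃ a : OO k, HN f N a ∧
    Psi τ (f * 2 ^ N * M) (sp a)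

/-! ## The unit `w` -/

/-- (150 lines, module `Eps`; USES `S_E10`, `S_D8`, `S_hSq`, `S_hRdm`, `S_hHN`, `S_hTP`, `S_hLat`) **Galois action on `ε`.** PROOF. See `DI/H3/Eps.lean`. Let `M = f 2^N l NI m`, `z = Tz f N y + j/λ`; `M z ∈ O ⊆ Lam b` (`S_hLat` (2)).
`S_E10`: `τ Θ(b, z) = Θ((a) b, z) = Θ(b, a z)` (`S_D8` (3), `a ≠ 0` by `S_hHN`); `a z = Tz f N (a y) + a j/λ`, and with `j' = (rd r a * j : ZMod l).val`: `a j/λ = j'/λ + toC x` (`S_hLat` (1)), `toC x ∈ Lam b`, so by the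
periodicity (`S_D8`) `τ Θ(b, z) = Θ(b, Tz f N (a y) + j'/λ)`. By `S_hSq` (last part, `rd r a ≠ 0` by `S_hRdm`: `Cop a l`, from `Psi.cop`: `PrI (a) M` gives `Cop a l`; if you need it take `S_O6` as a last hypothesis) with
`G j = Θ(b, Tz f N (a t) + j/λ)`: `τ (∏_{j ∈ J} Θ(b, z_t + j/λ)) = ∏_{j ∈ J'} Θ(b, Tz f N (a t) + j/λ)` with
`J' = J` if `rd r a` is a square, and `{J, J'} = {Sqs l, Nsq l}` otherwise. Finally `S_hTP` with `G x = ∏_{j ∈ J'} Θ(b, Tz f N x + j/λ)`: periodic modulo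
`f 2^N` (`S_D8`), even: `Θ(-Tz x + j/λ) = Θ(Tz x - j/λ) = Θ(Tz x + (l - j)/λ)` (`S_D8`, `S_hLat` (3)),
and `S_hSq` for `x = -1` (a square). -/
def S_hEps : Prop := ∀ (k : ℕ) [SqK k] (f N : ℕ) (m : Ideal (OO k)) (T : Finset (OO k))
  (b : Ideal (OO k)) (l : ℕ) (la : OO k) (r : ZMod l), Dat f N m T b l la r →
  ∀ (τ : Gal(Om/ℚ)) (a : OO k), Psi τ (f * 2 ^ N * l * NI m) (sp a) → HN f N a → Cop a l →
    (IsSquare (rd r a) → τ (epq f N m T b la (Sqs l)) = epq f N m T b la (Sqs l) ∧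
      τ (epq f N m T b la (Nsq l)) = epq f N m T b la (Nsq l)) ∧
    (¬ IsSquare (rd r a) → τ (epq f N m T b la (Sqs l)) = epq f N m T b la (Nsq l) ∧
      τ (epq f N m T b la (Nsq l)) = epq f N m T b la (Sqs l))

/-- (60 lines, module `Uni`; USES `S_O6`, `S_D5`, `S_hGd`) **Units.** PROOF. `S_D5` for all factors, with `S_hGd`: `Nm t` is odd (`Cop t (2 f)`), `Nm λ = l` is odd, `PrI b 2` (`S_O6`); `UP.prod`;
`uN f N m T b = ∏_{t ∈ T} Θ(b, Tz f N t)` by definition. See `DI/H3/Uni.lean`. -/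
def S_hUni : Prop := ∀ (k : ℕ) [SqK k] (f N : ℕ) (m : Ideal (OO k)) (T : Finset (OO k))
  (b : Ideal (OO k)) (l : ℕ) (la : OO k) (r : ZMod l), Dat f N m T b l la r →
  (∀ Q : Ideal ZZ, Npr Q → ¬ MP Q 2 →
    UP Q (epq f N m T b la (Sqs l)) ∧ UP Q (epq f N m T b la (Nsq l)) ∧
    UP Q (uN f N m T b) ∧ ∀ t ∈ T, UP Q (Theta m b (Tz f N t))) ∧
  (∀ t ∈ T, ¬ (2 : ℤ) ∣ Nm t) ∧ uN f N m T b = ∏ t ∈ T, Theta m b (Tz f N t)

/-- (100 lines, module `Nrm`; USES `S_O6`, `S_D7`, `S_D8`, `S_G3`, `S_hSq`, `S_hLat`, `S_hGd`, `S_hUni`, `S_hTP`) **The norm.** PROOF. For `t ∈ T`, `z_t = Tz f N t`: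
`Θ(z_t) (∏_{Sqs} Θ(z_t + j/λ)) (∏_{Nsq} Θ(z_t + j/λ)) = ∏_{j < l} Θ(z_t + j/λ)` (`S_hSq`, `pL la 0 = 0`) `= Θ((λ) b, z_t)` (`S_D7` for the ideal `(λ)` and the system of `S_hLat` (6), `Finset.prod_image`; `PrI (λ) 2` by `S_O6`;
`(λ) ⊔ m = ⊤` from `PrI m l` and `λ ∣ l`; `z_t ∉ Lam ((λ) m b)` by `S_hGd`) `= Θ(b, λ z_t) = Θ(b, Tz f N (λ t))` (`S_D8` (3)). Take the product over `t ∈ T`: `u ε_s ε_n = ∏_t Θ(Tz (λ t)) = u` by `S_hTP` with `a = λ` (`hHN`),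
`G x = Θ(b, Tz x)` (even, periodic by `S_D8`). `u ≠ 0` (`S_G3`). See `DI/H3/Nrm.lean`. -/
def S_hNrm : Prop := ∀ (k : ℕ) [SqK k] (f N : ℕ) (m : Ideal (OO k)) (T : Finset (OO k))
  (b : Ideal (OO k)) (l : ℕ) (la : OO k) (r : ZMod l), Dat f N m T b l la r →
    epq f N m T b la (Sqs l) * epq f N m T b la (Nsq l) = 1

/-- (120 lines, module `Cng`; USES `S_O6`, `S_D3`, `S_D6`, `S_hSq`, `S_hDg`, `S_hLat`, `S_hGd`, `S_hUni`) **The congruence for `w`.** PROOF. See `DI/H3/Cng.lean` (public lemmas `DI.H3.CngAux.prod_congr`, `pow_congr`). (0) `¬ MP P 2` (`l` is odd and in `P`); `¬ Abv P m`: there is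
`μ ∈ m` with `l ∣ μ - 1` (`S_O6`, `hlm`), so `MP P (toO μ)` would give `MP P 1`. (1) For `0 < j < l`: `j/λ ∈ Lam ((λ) b)` (`S_hLat`), so
`IK P b (j/λ)` (`S_D3`, `Deg1 (λ) l`, `Abv P (λ)` by `S_hDg`) and `Θ(z_t + j/λ) ≡ Θ(z_t)` modulo `P` by `S_D6` (first part; `z_t` is good, `S_hGd`).
(2) Products of congruent elements of `V_P` are congruent: `ε_s ≡ ∏_t Θ(z_t) ^ ((l-1)/2) = u ^ ((l-1)/2)`. -/
def S_hCng : Prop := ∀ (k : ℕ) [SqK k] (f N : ℕ) (m : Ideal (OO k)) (T : Finset (OO k))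
  (b : Ideal (OO k)) (l : ℕ) (la : OO k) (r : ZMod l), Dat f N m T b l la r →
    ∀ P : Ideal ZZ, Npr P → (l : ZZ) ∈ P → MP P (toO la) →
      MP P (epq f N m T b la (Sqs l) - uN f N m T b ^ ((l - 1) / 2))

/-! ## The homomorphism `h` -/

/-- (180 lines, module `Hom`; USES `S_O6`, `S_O7`, `S_E1`, `S_E8`, `S_hSq`, `S_hRdm`, `S_hHN`, `S_hFix`) **The quadratic character.** PROOF. See `DI/H3/Hom.lean`. `M = f 2^N l`. Define `h τ = 0` for `τ ∉ Gal(Om/F)`; for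
`τ ∈ Gal(Om/F)` choose `a` with `Psi τ M (a)`, `HN f N a` (`S_hFix`) and let `h τ = 0` if `rd r a` is a
square, `1` otherwise. It does not depend on `a`: `Ray M (a) (a')` (`S_E1`), so `M ∣ a - a'` or `M ∣ a + a'` (`S_O7`; `a`, `a'` are prime to `M` by `Psi.cop` and `S_O6`), so `rd r a = ± rd r a'` (`S_hSq` (3)).
`Psi τ M' (a)`, `M ∣ M'`, implies `Psi τ M (a)` (`S_E1`). Additivity: `Psi (τ σ) M ((a) (b))` (`S_E1`), `(a) (b) = (a b)`, `HN f N (a b)`; `rd r (a b) = rd r a rd r b`, both nonzero (`S_hRdm`); `S_hSq` (1).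
Locally constant: let `E = FixI M (fun c => Ray M c ⊤)`: by `S_E8` (conditions from `S_O7`; `Ray M c ⊤` gives `c ≠ ⊥`, `PrI c M`) it is finite over `ℚ`, so `E.fixingSubgroup` is open (`IntermediateField.fixingSubgroup_isOpen`), and for
`τ ∈ Gal(Om/F) ∩ E.fixingSubgroup`: `Ray M (a) ⊤`, `⊤ = (1)`, so `M ∣ a ∓ 1`, `rd r a = ±1`, `h τ = 0`. The set `∅` of local groups: no further condition. -/
def S_hHom : Prop := ∀ (k : ℕ) [SqK k] (f N : ℕ) (l : ℕ) (la : OO k) (r : ZMod l), 1 ≤ N →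
  DatL f l la r → ∃ h ∈ VV 2 ∅ (Mn k f N).fixingSubgroup, IsH k f N l r h

/-- (100 lines, module `Unr`; USES `S_B1`, `S_R4`, `S_E4`, `S_O6`, `S_hSq`, `S_hRdm`, `S_hDg`, `S_hLat`, `S_hFix`) **`h` is unramified outside `2 λ`.** PROOF. See `DI/H3/Unr.lean`. `a` from `S_hFix` for `M = l`: `Psi ι (f 2^N l) (a)`, `HN f N a`.
`S_E4` (second part) with `δ = (λ)`, `b = ⊤`, `z = 1/λ` (`pL la 1`, in `Lam ((λ) ⊤)`; `¬ Abv P (λ)` by `S_hDg`): `xO ⊤ (a/λ) = xO ⊤ (1/λ)`; apply `io` (`S_R4`): `XC ⊤ (a/λ) = XC ⊤ (1/λ)`, both points not in `Lam ⊤` (`rd r a ≠ 0`;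
`a/λ = pL la a' + O`, `S_hLat` for `b = ⊤`), so `S_B1`: `a/λ - 1/λ` or `a/λ + 1/λ` is in `Lam ⊤ = O`, i.e. `λ ∣ a - 1` or
`λ ∣ a + 1`, `rd r a = ±1`, a square. -/
def S_hUnr : Prop := ∀ (k : ℕ) [SqK k] (f N : ℕ) (l : ℕ) (la : OO k) (r : ZMod l), 1 ≤ N →
  DatL f l la r → ∀ h : Gal(Om/ℚ) → ZMod 2, IsH k f N l r h →
  ∀ P : Ideal ZZ, Npr P → ¬ MP P (toO la) →
    ∀ ι ∈ P.inertia Gal(Om/ℚ), ι ∈ (Mn k f N).fixingSubgroup → h ι = 0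

/-- (150 lines, module `NmK`; USES nothing) **The prime `(λ)` of `K`.** PROOF. Port of `DI/H3/NmK.lean` (its lemma `DI.H3.NmKAux.norm_root` is public): the norm of `λ = x + y w` from `K` to `ℚ` is `x ^ 2 + x y + 2 k y ^ 2`. -/
def S_hNmK : Prop := ∀ (k : ℕ) [SqK k] (l : ℕ) (la : OO k), l.Prime → Nm la = l →
  ∃ (_ : NumberField (KQ k)) (b : 𝓞 (KQ k)),
  ((b : KQ k) : Om) = toO la ∧ (Ideal.span {b} : Ideal (𝓞 (KQ k))).IsPrime ∧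
    ∀ P : Ideal ZZ, P.IsPrime → MP P (toO la) → P.comap (iO (KQ k)) = Ideal.span {b}

/-- (80 lines, module `Inr`; USES `S_hNmK`) **`K(√λ)/K` is ramified over `λ`.** Port of `DI/H3/Inr.lean`. -/
def S_hInr : Prop := ∀ (k : ℕ) [SqK k] (l : ℕ) (la : OO k), l.Prime → l ≠ 2 → Nm la = l →
  ∀ P : Ideal ZZ, Npr P → (l : ZZ) ∈ P → MP P (toO la) →
    ∃ ι ∈ P.inertia Gal(Om/ℚ), ι ∈ GK k ∧ ι (sqr (toO la)) ≠ sqr (toO la)

/-- (40 lines, module `Tra`; USES `S_hNmK`) **Transitivity.** Port of `DI/H3/Tra.lean`. -/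
def S_hTra : Prop := ∀ (k : ℕ) [SqK k] (l : ℕ) (la : OO k), l.Prime → Nm la = l →
  ∀ P Q : Ideal ZZ, Npr P → Npr Q → MP P (toO la) → MP Q (toO la) → ∃ σ ∈ GK k, P = σ • Q

/-- (200 lines, module `Ram`; USES `S_B1`, `S_B7`, `S_D4`, `S_O6`, `S_hSq`, `S_hRdm`, `S_hDg`, `S_hLat`, `S_hFix`, `S_hInr`) **`h` is ramified over `λ`.** PROOF. Port of `DI/H3/Ram.lean`. Take `ι` from `S_hInr`, `β = sqr (toO λ)`,
`β ^ 2 = toO λ`, `ι β = - β`. (1) `ι ∈ Gal(Om/F)` by hypothesis. (2) `a` from `S_hFix` (`M = l`): `Psi ι (f 2^N l) (a)`, `HN f N a`; suppose that `x = rd r a` is a square.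
`B = (Sqs l).filter (2 j < l)`, `G j = xO ⊤ (j/λ)`, `x₁ = ∏_{j ∈ B} G j`. `ι (G j) = xO ((a) ⊤) (j/λ) = xO ⊤ (a j/λ)` (`Psi.xx`: `(f 2^N l) (j/λ) ∈ Lam ⊤`; `S_B7` (first part) for `XC ((a) ⊤) z = XC ⊤ (a z)`) `= G j'` with `j' = (x * j).val`
(`S_hLat`, periodicity of `XC`: `S_B1`). `tPrm` on `B` (in `ℕ`) with `R j j'` : `(j : ZMod l) = j'` or
`= -j'`, `e j = (x * j).val` gives `ι x₁ = x₁`. (3) `y = x₁ β` is a unit at `P`: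
`y ^ 2 = x₁ ^ 2 λ = (∏_{j ∈ Sqs l} G j) λ` (`S_hSq`), and the `((l-1)/2)`-th power of this is
`∏_{j ∈ Sqs l} (λ (G j) ^ ((l-1)/2))`, a unit by `S_D4` (`b = ⊤`);
`UP.of_pow` twice. (4) `ι y = - y` and `ι y - y ∈ MP P` (`VP.inertia`), so `2 y ∈ MP P`; `2` and
`y` are units at `P`: contradiction. So `rd r a` is not a square, `h ι ≠ 0`. -/
def S_hRam : Prop := ∀ (k : ℕ) [SqK k] (f N : ℕ) (l : ℕ) (la : OO k) (r : ZMod l), 1 ≤ N →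
  DatL f l la r → ∀ h : Gal(Om/ℚ) → ZMod 2, IsH k f N l r h →
  ∀ P : Ideal ZZ, Npr P → (l : ZZ) ∈ P → MP P (toO la) →
    (∀ ι ∈ P.inertia Gal(Om/ℚ), ι ∈ (Mn k f N).fixingSubgroup) →
    ∃ ι ∈ P.inertia Gal(Om/ℚ), ι ∈ (Mn k f N).fixingSubgroup ∧ h ι ≠ 0

/-! ## Result -/

/-- (180 lines, module `Res`; USES `S_O2`, `S_O6`, `S_E1`, `S_E2`, `S_G3`, `S_hSq`, `S_hLa`, `S_hAlm`, `S_hPri`, `S_hFix`, `S_hEps`, `S_hUni`, `S_hNrm`, `S_hCng`, `S_hHom`, `S_hUnr`, `S_hRam`, `S_hTra`; also `tLeg` of `DI/H3/Leg.lean`) **Result.** PROOF. See `DI/H3/Res.lean`.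
`B = f NI m NI b B₁ B₂`, `B₁` from `S_E2` for `f 2^N`, `B₂` from `S_hAlm` for `F = Mn k f N`. Let `l`, `Q`, `φ` be given; `φ ∈ GK` (`S_hFix`). `S_hLa`: `q`, `r`; `Abv Q q`, so `Psi φ (f 2^N) q` (`S_E2`: `Fro Q l φ`), `HPN f N q` (`S_hFix`), `q = (λ)`, `HN f N λ` (`S_hPri`);
`Nm λ = NI q = l` (`S_O2`), `rd r x = 0 ↔ x ∈ (λ) ↔ λ ∣ x`. `PrI m l`, `PrI b l` by `S_O6`. So `Dat`. `w = ε_s`, `h` from `S_hHom`. (1) For `τ ∈ Gal(Om/F)` let `Psi τ (f 2^N (l NI m)) (a)`, `HN f N a` (`S_hFix`), `Cop a l` (`Psi.cop`, `S_O6`);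
`S_hEps`, `ε_s ε_n = 1` (`S_hNrm`): `h τ = 0`: `τ w = w`; `h τ ≠ 0`: `τ w = ε_n = w⁻¹`. (2) `w` is a unit at all `P` not over `2`: `S_hUni`.
(3) unramified: `P ≠ σ Q` for all `σ ∈ GK`: if `MP P (toO λ)` then `S_hTra` gives a contradiction; so
`S_hUnr`. (4) `P = σ Q`, `σ ∈ GK`: `(l : ZZ) ∈ P`, `MP P (toO λ)` (`MP.smul`, `GK_toO`); `(B₂ : ZZ) ∉ P` (`l` and `B₂` are coprime), so `S_hAlm` gives the hypothesis of `S_hRam`; the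
Frobenius element at `P` is `ψ = σ φ σ⁻¹ ∈ Gal(Om/F)` (`S_hFix`): `ψ • x - x ^ l ∈ σ Q`; `S_hCng`, `tLeg`
(`u` is fixed by `ψ` as `u ∈ F`, unit at `P`, `≠ 0`: `S_G3`). `h ≠ 0` by `S_hRam` for `P = Q`. -/
def S_hRes : Prop := ∀ (k : ℕ) [SqK k] (f N : ℕ) (m : Ideal (OO k)) (T : Finset (OO k))
  (b : Ideal (OO k)), Odd f → 3 ≤ f → 2 ≤ N → m ≠ ⊥ → PrI m 2 → PrI m f → IsRep f N T → b ≠ ⊥ →
  PrI b (2 * f) → ∃ B : ℕ, 0 < B ∧
  ∀ (l : ℕ), l.Prime → l % 4 = 1 → l.Coprime B →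
  ∀ Q : Ideal ZZ, Npr Q → (l : ZZ) ∈ Q →
  ∀ φ ∈ (Mn k f N).fixingSubgroup, (∀ x : ZZ, φ • x - x ^ l ∈ Q) →
  ∃ h ∈ VV 2 ∅ (Mn k f N).fixingSubgroup, ∃ w : Om, w ≠ 0 ∧ h ≠ 0 ∧
    (∀ τ ∈ (Mn k f N).fixingSubgroup, h τ = 0 → τ w = w) ∧
    (∀ τ ∈ (Mn k f N).fixingSubgroup, h τ ≠ 0 → τ w * w = 1) ∧
    (∀ P : Ideal ZZ, Npr P → ¬ MP P 2 → UP P w) ∧
    (∀ P : Ideal ZZ, Npr P → ¬ MP P 2 → (∀ σ ∈ GK k, P ≠ σ • Q) →
      ∀ ι ∈ P.inertia Gal(Om/ℚ), ι ∈ (Mn k f N).fixingSubgroup → h ι = 0) ∧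
    ∀ σ ∈ GK k, (∃ ι ∈ (σ • Q).inertia Gal(Om/ℚ), ι ∈ (Mn k f N).fixingSubgroup ∧ h ι ≠ 0) ∧
      (kap (σ⁻¹ (uN f N m T b)) φ = 0 → MP (σ • Q) (w - 1)) ∧
      (kap (σ⁻¹ (uN f N m T b)) φ ≠ 0 → MP (σ • Q) (w + 1))

/-- **The element `x`** (H3, H4): `q` is a prime of `F = Mn k f N` below `Q`, of absolute norm the
prime `l`; `φ` is a Frobenius element at `Q`. -/
def S_KK : Prop :=
  ∀ (k : ℕ) [SqK k] (f N : ℕ) (m : Ideal (OO k)) (T : Finset (OO k)) (b : Ideal (OO k)), Odd f →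
    3 ≤ f → 2 ≤ N → m ≠ ⊥ → PrI m 2 → PrI m f → IsRep f N T → b ≠ ⊥ → PrI b (2 * f) →
    ∃ B : ℕ, 0 < B ∧ ∀ [NumberField (Mn k f N)],
    ∀ l : ℕ, l.Prime → l % 4 = 1 → l.Coprime B →
    ∀ Q : Ideal ZZ, Npr Q → (l : ZZ) ∈ Q →
    Nat.card (𝓞 (Mn k f N) ⧸ Q.comap (iO (Mn k f N))) = l →
    ∀ φ : Gal(Om/ℚ), IsFr (Mn k f N) Q φ →
      ∃ x : Mn k f N, x ≠ 0 ∧
        (∀ (q' : HeightOneSpectrum (𝓞 (Mn k f N))) (Q' : Ideal ZZ), Ab (Mn k f N) Q' q' →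
          ¬ MP Q' 2 →
          ¬ (∃ s ∈ GK k, Q'.comap (iO (Mn k f N)) = (s • Q).comap (iO (Mn k f N))) →
          (2 : ℤ) ∣ vl (Mn k f N) q' x) ∧
        ∀ s ∈ GK k, ∀ q' : HeightOneSpectrum (𝓞 (Mn k f N)),
          q'.asIdeal = (s • Q).comap (iO (Mn k f N)) →
          ((vl (Mn k f N) q' x : ℤ) : ZMod 2) = kap (s⁻¹ (uN f N m T b)) φ

/-- (120 lines, module `Fin`: `theorem tFin : S_hFin`) Port of `DI/H3/Fin.lean`. -/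
def S_hFin : Prop := S_hRes → S_KAP → S_KK

/-- (150 lines, module `Asm`; USES `S_KK`, `S_G3`, `S_GM`, `S_E9`) **Theorem H.** PROOF. Port of `DI/T/AsmH.lean` (its lemmas `tc_of_wO` (adapt: `wO k ^ 2 = wO k - 2 k`, `k ≥ 1`), `DI.stab_of_le`, `DI.npr_smul`, `DI.two_mem_iff`), with the abstract Theorem H
`DI.th : DI.S_TH` and the number `M = 2 B`. `rho_i` becomes short: `ρ` from `DI.in_cyc` (`ρ ζ = ζ ^ (2 ^ N - 1) = ζ⁻¹` for a primitive `2 ^ N`-th root of unity), `ρ` fixes `Mf` (`S_E9`: inertia at `2`), so it fixes `Mn` (`S_GM`, last part), and `ρ i ≠ i`. -/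
def S_hAsm : Prop := S_H

end Pool.Agent.DK.H3
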